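import Mathlib

set_option autoImplicit false

open Filter Topology Set
open scoped ContDiff

namespace Pool.Agent.H788Z.Geo

abbrev E3 := EuclideanSpace ℝ (Fin 3)

/-- Lorentz form of signature (1,2). -/
def lor (x y : E3) : ℝ := x 0 * y 0 - x 1 * y 1 - x 2 * y 2

/-- The (scale invariant, radially degenerate) hyperbolic form on the positive cone. -/
noncomputable def hyp (P v w : E3) : ℝ := (lor P v * lor P w - lor P P * lor v w) / (lor P P) ^ 2

lemma lor_comm (x y : E3) : lor x y = lor y x := by unfold lor; ring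

lemma lor_add_left (x y z : E3) : lor (x + y) z = lor x z + lor y z := by
  simp [lor]; ring

lemma lor_add_right (x y z : E3) : lor z (x + y) = lor z x + lor z y := by
  simp [lor]; ring

lemma lor_sub_right (x y z : E3) : lor z (x - y) = lor z x - lor z y := by
  simp [lor]; ring

lemma lor_sub_left (x y z : E3) : lor (x - y) z = lor x z - lor y z := by
  simp [lor]; ring

lemma lor_smul_left (a : ℝ) (x z : E3) : lor (a • x) z = a * lor x z := by
  simp [lor]; ring

lemma lor_smul_right (a : ℝ) (x z : E3) : lor z (a • x) = a * lor z x := by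
  simp [lor]; ring

lemma hyp_comm (P v w : E3) : hyp P v w = hyp P w v := by
  unfold hyp; rw [lor_comm v w]; ring

/-- linear map given by a matrix -/
noncomputable def lin (M : Matrix (Fin 3) (Fin 3) ℝ) : E3 →L[ℝ] E3 :=
  LinearMap.toContinuousLinearMap (Matrix.toEuclideanLin M)

lemma lin_apply (M : Matrix (Fin 3) (Fin 3) ℝ) (x : E3) (i : Fin 3) :
    lin M x i = M i 0 * x 0 + M i 1 * x 1 + M i 2 * x 2 := by
  simp [lin, Matrix.toEuclideanLin, Matrix.mulVec, dotProduct, Fin.sum_univ_three]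

lemma ext3 {x y : E3} (h0 : x 0 = y 0) (h1 : x 1 = y 1) (h2 : x 2 = y 2) : x = y := by
  ext i; fin_cases i
  · exact h0
  · exact h1
  · exact h2

noncomputable def lorL : E3 →L[ℝ] E3 →L[ℝ] ℝ :=
  (innerSL ℝ).comp (lin !![1, 0, 0; 0, -1, 0; 0, 0, -1])

lemma inner3 (x y : E3) : inner ℝ x y = x 0 * y 0 + x 1 * y 1 + x 2 * y 2 := by
  simp [PiLp.inner_apply, Fin.sum_univ_three]; ring

lemma norm_sq3 (x : E3) : ‖x‖ ^ 2 = x 0 ^ 2 + x 1 ^ 2 + x 2 ^ 2 := by
  rw [← real_inner_self_eq_norm_sq, inner3]; ring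

lemma lorL_apply (x y : E3) : lorL x y = lor x y := by
  simp only [lorL, ContinuousLinearMap.comp_apply, innerSL_apply_apply, inner3, lin_apply, lor]
  simp; ring

noncomputable def hypL (P : E3) : E3 →L[ℝ] E3 →L[ℝ] ℝ :=
  ((lor P P) ^ 2)⁻¹ • ((lorL P).smulRight (lorL P) - lor P P • lorL)

lemma hypL_apply (P v w : E3) : hypL P v w = hyp P v w := by
  simp [hypL, hyp, lorL_apply]; ring

lemma hyp_isom (g : E3 →L[ℝ] E3) (hg : ∀ x y, lor (g x) (g y) = lor x y) (P v w : E3) :
    hyp (g P) (g v) (g w) = hyp P v w := by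
  simp [hyp, hg]

/-- reverse Cauchy-Schwarz -/
lemma hyp_pos {P v : E3} (hP : 0 < lor P P) (hv : ∀ a : ℝ, v ≠ a • P) : 0 < hyp P v v := by
  unfold hyp
  apply div_pos _ (by positivity)
  by_contra hc
  push Not at hc
  have h0 : P 0 ≠ 0 := by
    intro h; unfold lor at hP; rw [h] at hP; nlinarith [sq_nonneg (P 1), sq_nonneg (P 2)]
  set a := v 0 / P 0 with ha
  have e0 : v 0 = a * P 0 := by rw [ha]; field_simp
  set w1 := v 1 - a * P 1 with hw1
  set w2 := v 2 - a * P 2 with hw2
  have e1 : v 1 = w1 + a * P 1 := by rw [hw1]; ring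
  have e2 : v 2 = w2 + a * P 2 := by rw [hw2]; ring
  have key : lor P v * lor P v - lor P P * lor v v =
      (P 1 * w1 + P 2 * w2) ^ 2 + lor P P * (w1 ^ 2 + w2 ^ 2) := by
    unfold lor; rw [e0, e1, e2]; ring
  rw [key] at hc
  have hz : w1 ^ 2 + w2 ^ 2 ≤ 0 := by
    by_contra h; push Not at h
    nlinarith [mul_pos hP h, sq_nonneg (P 1 * w1 + P 2 * w2)]
  have z1 : w1 = 0 := by nlinarith [sq_nonneg w1, sq_nonneg w2]
  have z2 : w2 = 0 := by nlinarith [sq_nonneg w1, sq_nonneg w2]
  apply hv a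
  apply ext3
  · simpa using e0
  · simpa [z1] using e1
  · simpa [z2] using e2

/-- Busemann calibration inequality -/
lemma calib {P V v : E3} (hP : 0 < lor P P) (hV : lor V V = 0) (hPV : 0 < lor V P) :
    lor V v / lor V P - lor P v / lor P P ≤ Real.sqrt (hyp P v v) := by
  apply Real.le_sqrt_of_sq_le
  have key : (lor V P) ^ 2 * (lor P v * lor P v - lor P P * lor v v) -
      (lor V v * lor P P - lor P v * lor V P) ^ 2 =
      lor P P * (P 0 * (V 1 * v 2 - V 2 * v 1) - P 1 * (V 0 * v 2 - V 2 * v 0) +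
        P 2 * (V 0 * v 1 - V 1 * v 0)) ^ 2 := by
    unfold lor at *
    linear_combination (-(P 0 * P 0 - P 1 * P 1 - P 2 * P 2) *
      ((P 0 * P 0 - P 1 * P 1 - P 2 * P 2) * (v 0 * v 0 - v 1 * v 1 - v 2 * v 2) -
        (P 0 * v 0 - P 1 * v 1 - P 2 * v 2) ^ 2)) * hV
  have e : lor V v / lor V P - lor P v / lor P P =
      (lor V v * lor P P - lor P v * lor V P) / (lor V P * lor P P) := by
    field_simp
  rw [e, div_pow, hyp, div_le_div_iff₀ (by positivity) (by positivity)]
  have : 0 ≤ lor P P * (P 0 * (V 1 * v 2 - V 2 * v 1) - P 1 * (V 0 * v 2 - V 2 * v 0) +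
        P 2 * (V 0 * v 1 - V 1 * v 0)) ^ 2 := by positivity
  have h2 : 0 < (lor P P) ^ 2 := by positivity
  nlinarith

lemma hyp_scale {P v : E3} {r r' : ℝ} (hr : r ≠ 0) (hP : lor P P ≠ 0) :
    hyp (r • P) (r' • P + r • v) (r' • P + r • v) = hyp P v v := by
  simp only [hyp, lor_add_left, lor_add_right, lor_smul_left, lor_smul_right, lor_comm v P]
  field_simp
  ring

lemma contDiff_lor {X : Type*} [NormedAddCommGroup X] [NormedSpace ℝ X] {n : WithTop ℕ∞}
    {f g : X → E3} {s : Set X} (hf : ContDiffOn ℝ n f s) (hg : ContDiffOn ℝ n g s) :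
    ContDiffOn ℝ n (fun x => lor (f x) (g x)) s := by
  have : (fun x => lor (f x) (g x)) = fun x => lorL (f x) (g x) := by
    ext x; rw [lorL_apply]
  rw [this]
  exact (lorL.contDiff.comp_contDiffOn hf).clm_apply hg

lemma continuous_lor {X : Type*} [TopologicalSpace X]
    {f g : X → E3} (hf : Continuous f) (hg : Continuous g) :
    Continuous (fun x => lor (f x) (g x)) := by
  unfold lor; fun_prop

end Pool.Agent.H788Z.Geo
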