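import Pool.Agent.H788Z.Geo.Metric

set_option autoImplicit false

open Filter Topology Set
open scoped ContDiff

namespace Pool.Agent.H788Z.Geo

noncomputable def len (G : E3 → (E3 →L[ℝ] (E3 →L[ℝ] ℝ))) (σ : ℝ → E3) : ℝ :=
  ∫ u in (0:ℝ)..1, Real.sqrt (G (σ u) (deriv σ u) (deriv σ u))

def Lower (G : E3 → (E3 →L[ℝ] (E3 →L[ℝ] ℝ))) (a b : E3) (d : ℝ) : Prop :=
  ∀ σ : ℝ → E3, ContDiff ℝ 1 σ → (∀ u ∈ Set.Icc (0:ℝ) 1, σ u ∈ Metric.sphere (0 : E3) 1) →
    σ 0 = a → σ 1 = b → d ≤ len G σ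

def Upper (G : E3 → (E3 →L[ℝ] (E3 →L[ℝ] ℝ))) (a b : E3) (d : ℝ) : Prop :=
  ∀ δ > (0:ℝ), ∃ σ : ℝ → E3, ContDiff ℝ 1 σ ∧
    (∀ u ∈ Set.Icc (0:ℝ) 1, σ u ∈ Metric.sphere (0 : E3) 1) ∧ σ 0 = a ∧ σ 1 = b ∧
    len G σ < d + δ

lemma exists_lower {G : E3 → (E3 →L[ℝ] (E3 →L[ℝ] ℝ))} (hG : Continuous G)
    (hpos : ∀ x ∈ Metric.sphere (0 : E3) 1, ∀ v : E3, inner ℝ x v = (0:ℝ) → v ≠ 0 → 0 < G x v v) :
    ∃ m > 0, ∀ x ∈ Metric.sphere (0 : E3) 1, ∀ v : E3, inner ℝ x v = (0:ℝ) →
      m * ‖v‖ ≤ Real.sqrt (G x v v) := by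
  let T : Set (E3 × E3) := (Metric.sphere (0 : E3) 1 ×ˢ Metric.sphere (0 : E3) 1) ∩
    {p | inner ℝ p.1 p.2 = (0:ℝ)}
  have hT : IsCompact T :=
    ((isCompact_sphere _ _).prod (isCompact_sphere _ _)).inter_right
      (isClosed_eq (by fun_prop) continuous_const)
  have hc : Continuous fun p : E3 × E3 => Real.sqrt (G p.1 p.2 p.2) := by fun_prop
  obtain ⟨m, hm, hmT⟩ := hT.exists_forall_le' (a := (0:ℝ)) hc.continuousOn (by
    rintro ⟨x, v⟩ ⟨⟨hx, hv⟩, hxv⟩
    apply Real.sqrt_pos.2 (hpos x hx v hxv _)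
    rintro rfl
    simp at hv)
  refine ⟨m, hm, fun x hx v hxv => ?_⟩
  by_cases hv : v = 0
  · simp [hv]
  have hn : 0 < ‖v‖ := norm_pos_iff.2 hv
  have := hmT (x, ‖v‖⁻¹ • v) ⟨⟨hx, by simp [norm_smul, hn.ne']⟩, by
    simp [inner_smul_right, hxv]⟩
  simp only [map_smul, smul_apply, smul_eq_mul] at this
  have e : G x v v = ‖v‖ ^ 2 * (‖v‖⁻¹ * (‖v‖⁻¹ * G x v v)) := by field_simp
  rw [e, Real.sqrt_mul (by positivity), Real.sqrt_sq hn.le, mul_comm]
  gcongr

lemma tangent {σ : ℝ → E3} (hσ : ContDiff ℝ 1 σ)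
    (hS : ∀ u ∈ Set.Icc (0:ℝ) 1, σ u ∈ Metric.sphere (0 : E3) 1) {u : ℝ} (hu : u ∈ Ioo (0:ℝ) 1) :
    inner ℝ (σ u) (deriv σ u) = (0:ℝ) := by
  have hd : HasDerivAt σ (deriv σ u) u := (hσ.differentiable (by simp) u).hasDerivAt
  have h1 := hd.inner ℝ hd
  have h2 : HasDerivAt (fun t => inner ℝ (σ t) (σ t)) (0:ℝ) u := by
    apply (hasDerivAt_const u (1:ℝ)).congr_of_eventuallyEq
    filter_upwards [Icc_mem_nhds hu.1 hu.2] with t ht
    rw [real_inner_self_eq_norm_sq, mem_sphere_zero_iff_norm.1 (hS t ht)]; norm_num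
  have := h1.unique h2
  rw [real_inner_comm (σ u) (deriv σ u)] at this
  linarith

lemma integrand_cont {G : E3 → (E3 →L[ℝ] (E3 →L[ℝ] ℝ))} (hG : Continuous G) {σ : ℝ → E3} (hσ : ContDiff ℝ 1 σ) :
    Continuous fun u => Real.sqrt (G (σ u) (deriv σ u) (deriv σ u)) := by
  have h1 := hσ.continuous
  have h2 : Continuous (deriv σ) := hσ.continuous_deriv le_rfl
  fun_prop

lemma length_ge {G : E3 → (E3 →L[ℝ] (E3 →L[ℝ] ℝ))} (hG : Continuous G) {m : ℝ} (hm : 0 ≤ m)
    (hmG : ∀ x ∈ Metric.sphere (0 : E3) 1, ∀ v : E3, inner ℝ x v = (0:ℝ) →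
      m * ‖v‖ ≤ Real.sqrt (G x v v))
    {σ : ℝ → E3} (hσ : ContDiff ℝ 1 σ)
    (hS : ∀ u ∈ Set.Icc (0:ℝ) 1, σ u ∈ Metric.sphere (0 : E3) 1) {b : ℝ} (hb : b ∈ Icc (0:ℝ) 1) :
    m * ‖σ b - σ 0‖ ≤ len G σ := by
  have hc := integrand_cont hG hσ
  set e := σ b - σ 0 with he
  by_cases he0 : e = 0
  · rw [he0, norm_zero, mul_zero]
    exact intervalIntegral.integral_nonneg zero_le_one fun u _ => Real.sqrt_nonneg _
  have hn : 0 < ‖e‖ := norm_pos_iff.2 he0
  have h1 : (m / ‖e‖ * inner ℝ e (σ b)) - (m / ‖e‖ * inner ℝ e (σ 0)) ≤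
      ∫ u in (0:ℝ)..b, Real.sqrt (G (σ u) (deriv σ u) (deriv σ u)) := by
    apply intervalIntegral.sub_le_integral_of_hasDeriv_right_of_le
      (g := fun u => m / ‖e‖ * inner ℝ e (σ u))
      (g' := fun u => m / ‖e‖ * inner ℝ e (deriv σ u)) hb.1
    · have := hσ.continuous
      fun_prop
    · intro u _
      have hd : HasDerivAt σ (deriv σ u) u := (hσ.differentiable (by simp) u).hasDerivAt
      have := ((hasDerivAt_const u e).inner ℝ hd).const_mul (m / ‖e‖)
      simp only [inner_zero_left, add_zero] at this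
      exact this.hasDerivWithinAt
    · exact hc.continuousOn.integrableOn_Icc
    · intro u hu
      have hu' : u ∈ Ioo (0:ℝ) 1 := ⟨hu.1, hu.2.trans_le hb.2⟩
      refine le_trans ?_ (hmG _ (hS u (Ioo_subset_Icc_self hu')) _ (tangent hσ hS hu'))
      calc m / ‖e‖ * inner ℝ e (deriv σ u) ≤ m / ‖e‖ * (‖e‖ * ‖deriv σ u‖) := by
            gcongr; exact real_inner_le_norm _ _
        _ = _ := by field_simp
  have h2 : (m / ‖e‖ * inner ℝ e (σ b)) - (m / ‖e‖ * inner ℝ e (σ 0)) = m * ‖e‖ := by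
    rw [← mul_sub, ← inner_sub_right, ← he, real_inner_self_eq_norm_sq]; field_simp
  rw [← h2]
  refine h1.trans ?_
  apply intervalIntegral.integral_mono_interval le_rfl hb.1 hb.2
  · exact Eventually.of_forall fun u => Real.sqrt_nonneg _
  · exact hc.intervalIntegrable _ _

/-- hyperbolic geodesic with ideal end points `U`, `V` -/
noncomputable def geo (U V : E3) (s : ℝ) : E3 := Real.exp s • U + Real.exp (-s) • V

lemma lor_geo {U V : E3} (hU : lor U U = 0) (hV : lor V V = 0) (s : ℝ) :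
    lor (geo U V s) (geo U V s) = 2 * lor U V := by
  simp only [geo, lor_add_left, lor_add_right, lor_smul_left, lor_smul_right, hU, hV,
    lor_comm V U]
  have := Real.exp_neg s
  have h := Real.exp_pos s
  rw [this]; field_simp; ring

lemma lor_V_geo {U V : E3} (hV : lor V V = 0) (s : ℝ) :
    lor V (geo U V s) = Real.exp s * lor U V := by
  simp only [geo, lor_add_right, lor_smul_right, hV, lor_comm V U]; ring

lemma hasDerivAt_geo (U V : E3) (s : ℝ) :
    HasDerivAt (geo U V) (Real.exp s • U - Real.exp (-s) • V) s := by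
  have h1 := (Real.hasDerivAt_exp s).smul_const U
  have h2 := ((hasDerivAt_neg s).exp).smul_const V
  refine (h1.add h2).congr_deriv ?_
  simp [sub_eq_add_neg]

lemma contDiff_geo (U V : E3) : ContDiff ℝ 1 (geo U V) := by
  unfold geo; fun_prop

lemma hyp_geo {U V : E3} (hU : lor U U = 0) (hV : lor V V = 0) (hUV : 0 < lor U V) (s : ℝ) :
    hyp (geo U V s) (Real.exp s • U - Real.exp (-s) • V)
      (Real.exp s • U - Real.exp (-s) • V) = 1 := by
  rw [hyp, lor_geo hU hV]
  simp only [geo, lor_add_left, lor_sub_left, lor_sub_right, lor_smul_left, lor_smul_right, hU, hV,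
    lor_comm V U]
  have := Real.exp_neg s
  have h := Real.exp_pos s
  rw [this]; field_simp; ring

/-- radial normalisation in the chart -/
noncomputable def nz (f : E3 → E3) (P : E3) : E3 := ‖f P‖⁻¹ • P

theorem local_geo {G : E3 → (E3 →L[ℝ] (E3 →L[ℝ] ℝ))} (hG : Continuous G) {m : ℝ} (hm : 0 < m)
    (hmG : ∀ x ∈ Metric.sphere (0 : E3) 1, ∀ v : E3, inner ℝ x v = (0:ℝ) →
      m * ‖v‖ ≤ Real.sqrt (G x v v))
    {f : E3 → E3} {O : Set E3} (hO : IsOpen O)
    (hs : ∀ P ∈ O, ContDiffAt ℝ ∞ f P) (hi : ∀ P ∈ O, Function.Injective (fderiv ℝ f P))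
    (hGf : ∀ P ∈ O, ‖f P‖ = 1 → ∀ v w : E3,
        G (f P) (fderiv ℝ f P v) (fderiv ℝ f P w) = hyp P v w)
    {U V : E3} (hU : lor U U = 0) (hV : lor V V = 0) (hUV : 0 < lor U V)
    (hsm : ∀ s, ∀ r > (0:ℝ), ContDiffAt ℝ 1 f (r • geo U V s))
    (hhom : ∀ s, ∀ r > (0:ℝ), f (r • geo U V s) = r • f (geo U V s))
    (hne : ∀ s, f (geo U V s) ≠ 0) {t : ℝ} (ht : nz f (geo U V t) ∈ O) :
    ∃ ε > 0, ∀ s₁ s₂, t - ε < s₁ → s₁ ≤ s₂ → s₂ < t + ε →
      Lower G (f (nz f (geo U V s₁))) (f (nz f (geo U V s₂))) (s₂ - s₁) ∧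
      Upper G (f (nz f (geo U V s₁))) (f (nz f (geo U V s₂))) (s₂ - s₁) := by
  set ρ : ℝ → ℝ := fun s => ‖f (geo U V s)‖⁻¹ with hρ
  have hρpos : ∀ s, 0 < ρ s := fun s => inv_pos.2 (norm_pos_iff.2 (hne s))
  have hfg : ContDiff ℝ 1 fun s => f (geo U V s) := by
    rw [contDiff_iff_contDiffAt]
    intro s
    have := hsm s 1 one_pos
    rw [one_smul] at this
    exact this.comp s (contDiff_geo U V).contDiffAt
  have hρs : ContDiff ℝ 1 ρ :=
    (hfg.norm ℝ hne).inv fun s => (norm_pos_iff.2 (hne s)).ne'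
  set Q : ℝ → E3 := fun s => nz f (geo U V s) with hQ
  have hQe : ∀ s, Q s = ρ s • geo U V s := fun s => rfl
  have hQs : ContDiff ℝ 1 Q := hρs.smul (contDiff_geo U V)
  have hc : ContDiff ℝ 1 fun s => f (Q s) := by
    rw [contDiff_iff_contDiffAt]
    intro s
    exact (hsm s _ (hρpos s)).comp s hQs.contDiffAt
  have hnorm : ∀ s, ‖f (Q s)‖ = 1 := by
    intro s
    rw [hQe, hhom s _ (hρpos s), norm_smul, Real.norm_eq_abs, abs_of_pos (hρpos s)]
    exact inv_mul_cancel₀ (norm_pos_iff.2 (hne s)).ne'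
  have hQQ : ∀ s, lor (Q s) (Q s) = ρ s ^ 2 * (2 * lor U V) := by
    intro s; rw [hQe, lor_smul_left, lor_smul_right, lor_geo hU hV]; ring
  have hVQ : ∀ s, lor V (Q s) = ρ s * (Real.exp s * lor U V) := by
    intro s; rw [hQe, lor_smul_right, lor_V_geo hV]
  set O' : Set E3 := O ∩ ({P | 0 < lor P P} ∩ {P | 0 < lor V P}) with hO'
  have hO'o : IsOpen O' :=
    hO.inter ((isOpen_lt continuous_const (continuous_lor continuous_id continuous_id)).inter
      (isOpen_lt continuous_const (continuous_lor continuous_const continuous_id)))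
  have htO' : Q t ∈ O' := by
    refine ⟨ht, ?_, ?_⟩
    · show 0 < lor (Q t) (Q t)
      rw [hQQ]; have := hρpos t; positivity
    · show 0 < lor V (Q t)
      rw [hVQ]; have := hρpos t; positivity
  obtain ⟨r, hr, F, hF, hFO, hFr, hFd, hFl⟩ := local_inv hO'o (fun P hP => hs P hP.1)
    (fun P hP => hi P hP.1) htO'
  have hev : ∀ᶠ s in 𝓝 t, F (f (Q s)) = Q s ∧ Q s ∈ O ∧ dist (f (Q s)) (f (Q t)) < r / 2 := by
    have hcQ : ContinuousAt Q t := hQs.continuous.continuousAt
    refine (hcQ.eventually hFl).and ((hcQ.eventually (hO.mem_nhds ht)).and ?_)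
    exact Metric.tendsto_nhds.1 hc.continuous.continuousAt _ (by positivity)
  obtain ⟨ε₀, hε₀, hev⟩ := Metric.eventually_nhds_iff.1 hev
  refine ⟨min ε₀ (m * r / 4), by positivity, fun s₁ s₂ h1 h12 h2 => ?_⟩
  have hm1 := min_le_left ε₀ (m * r / 4)
  have hm2 := min_le_right ε₀ (m * r / 4)
  have hin : ∀ s, s₁ ≤ s → s ≤ s₂ → dist s t < ε₀ := by
    intro s a b; rw [Real.dist_eq, abs_lt]; constructor <;> linarith
  constructor
  · intro σ hσ hS h0 h1'
    by_cases hall : ∀ u ∈ Icc (0:ℝ) 1, σ u ∈ Metric.ball (f (Q t)) r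
    · set β : E3 → ℝ := fun P => Real.log (lor V P) - (1 / 2) * Real.log (lor P P) with hβ
      have hβQ : ∀ s, β (Q s) = s + (Real.log (lor U V) - (1 / 2) * Real.log (2 * lor U V)) := by
        intro s
        have := hρpos s
        simp only [hβ, hQQ, hVQ]
        rw [Real.log_mul this.ne' (by positivity), Real.log_mul (by positivity) hUV.ne',
          Real.log_exp, Real.log_mul (by positivity) (by positivity), Real.log_pow]
        push_cast; ring
      have hder : ∀ u ∈ Icc (0:ℝ) 1, HasDerivAt (fun u => β (F (σ u)))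
          (lor V (fderiv ℝ F (σ u) (deriv σ u)) / lor V (F (σ u)) -
            lor (F (σ u)) (fderiv ℝ F (σ u) (deriv σ u)) / lor (F (σ u)) (F (σ u))) u := by
        intro u hu
        have hd : HasDerivAt σ (deriv σ u) u := (hσ.differentiable (by simp) u).hasDerivAt
        have hFu : HasFDerivAt F (fderiv ℝ F (σ u)) (σ u) :=
          ((hF.contDiffAt (Metric.isOpen_ball.mem_nhds (hall u hu))).differentiableAt
            (by simp)).hasFDerivAt
        have hw := hFu.comp_hasDerivAt u hd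
        set w := fderiv ℝ F (σ u) (deriv σ u)
        have a1 : HasDerivAt (fun u => lor V (F (σ u))) (lor V w) u := by
          have := (lorL V).hasFDerivAt.comp_hasDerivAt u hw
          simpa [Function.comp_def, lorL_apply] using this
        have a2 : HasDerivAt (fun u => lor (F (σ u)) (F (σ u))) (2 * lor (F (σ u)) w) u := by
          have := (lorL.hasFDerivAt.comp_hasDerivAt u hw).clm_apply hw
          simp only [Function.comp_def, lorL_apply] at this
          refine this.congr_deriv ?_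
          rw [lor_comm w]; ring
        have p1 : 0 < lor (F (σ u)) (F (σ u)) := (hFO _ (hall u hu)).2.1
        have p2 : 0 < lor V (F (σ u)) := (hFO _ (hall u hu)).2.2
        refine ((a1.log p2.ne').sub ((a2.log p1.ne').const_mul (1 / 2))).congr_deriv ?_
        field_simp
      have key := intervalIntegral.sub_le_integral_of_hasDeriv_right_of_le
        (g := fun u => β (F (σ u))) (φ := fun u => Real.sqrt (G (σ u) (deriv σ u) (deriv σ u)))
        zero_le_one (fun u hu => (hder u hu).continuousAt.continuousWithinAt)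
        (fun u hu => (hder u (Ioo_subset_Icc_self hu)).hasDerivWithinAt)
        (integrand_cont hG hσ).continuousOn.integrableOn_Icc (by
          intro u hu
          have hu' := Ioo_subset_Icc_self hu
          have hb := hall u hu'
          have e1 := hGf (F (σ u)) (hFO _ hb).1
            (by rw [hFr _ hb]; exact mem_sphere_zero_iff_norm.1 (hS u hu'))
            (fderiv ℝ F (σ u) (deriv σ u)) (fderiv ℝ F (σ u) (deriv σ u))
          rw [hFd _ hb, hFr _ hb] at e1
          simp only [e1]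
          exact calib (hFO _ hb).2.1 hV (hFO _ hb).2.2)
      simp only [h0, h1'] at key
      rw [(hev (hin s₂ h12 le_rfl)).1, (hev (hin s₁ le_rfl h12)).1, hβQ, hβQ] at key
      unfold len; linarith
    · push Not at hall
      obtain ⟨u, hu, hnot⟩ := hall
      have a1 := length_ge hG hm.le hmG hσ hS hu
      have a2 : r ≤ dist (σ u) (f (Q t)) := by simpa [Metric.mem_ball] using hnot
      have a3 := (hev (hin s₁ le_rfl h12)).2.2
      have a4 : dist (σ u) (f (Q t)) ≤ ‖σ u - σ 0‖ + dist (f (Q s₁)) (f (Q t)) := by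
        rw [← dist_eq_norm, h0]; exact dist_triangle _ _ _
      have a5 : r / 2 ≤ ‖σ u - σ 0‖ := by linarith
      have a6 : m * (r / 2) ≤ m * ‖σ u - σ 0‖ := by gcongr
      linarith
  · intro δ hδ
    have haff : ContDiff ℝ 1 fun u : ℝ => s₁ + u * (s₂ - s₁) := by fun_prop
    refine ⟨fun u => f (Q (s₁ + u * (s₂ - s₁))), hc.comp haff,
      fun u _ => mem_sphere_zero_iff_norm.2 (hnorm _), by simp [hQ], by simp [hQ], ?_⟩
    have : len G (fun u => f (Q (s₁ + u * (s₂ - s₁)))) = ∫ _ in (0:ℝ)..1, (s₂ - s₁) := by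
      apply intervalIntegral.integral_congr
      intro u hu
      rw [uIcc_of_le zero_le_one] at hu
      set s := s₁ + u * (s₂ - s₁) with hsdef
      have hs1 : s₁ ≤ s := by nlinarith [hu.1]
      have hs2 : s ≤ s₂ := by nlinarith [hu.2]
      have hsO := (hev (hin s hs1 hs2)).2.1
      have d1 : HasDerivAt (fun u : ℝ => s₁ + u * (s₂ - s₁)) (s₂ - s₁) u := by
        simpa using ((hasDerivAt_id u).mul_const (s₂ - s₁)).const_add s₁
      have d2 : HasDerivAt Q (deriv ρ s • geo U V s +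
          ρ s • (Real.exp s • U - Real.exp (-s) • V)) s := by
        have := (hρs.differentiable (by simp) s).hasDerivAt.smul (hasDerivAt_geo U V s)
        rw [add_comm] at this
        exact this
      have d3 := d2.scomp u d1
      have d4 := ((hs _ hsO).differentiableAt (by simp)).hasFDerivAt.comp_hasDerivAt u d3
      have d5 : deriv (fun u => f (Q (s₁ + u * (s₂ - s₁)))) u = _ := d4.deriv
      simp only
      rw [d5, map_smul, map_smul, map_smul, smul_apply, smul_eq_mul, smul_eq_mul,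
        hGf _ hsO (hnorm s), hQe, hyp_scale (hρpos s).ne' (by rw [lor_geo hU hV]; positivity),
        hyp_geo hU hV hUV, mul_one, Real.sqrt_mul_self (by linarith)]
    rw [this]; simp [hδ]

end Pool.Agent.H788Z.Geo
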