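import Pool.Agent.H788Z.Geo.Phi
import Pool.Agent.H788Z.Geo.Local

set_option autoImplicit false

open Filter Topology Set
open scoped ContDiff

namespace Pool.Agent.H788Z.Geo

lemma isOpen_Reg : IsOpen Reg := by
  rw [isOpen_iff_mem_nhds]
  rintro P ⟨h1, h2, h3, h4⟩
  have hc0 : ∀ i, ContinuousAt (fun X : E3 => X i / X 0) P := fun i =>
    ContinuousAt.div (by fun_prop) (by fun_prop) h1.1.ne'
  have hc : ∀ i, ContinuousAt (fun X : E3 => |X i / X 0|) P := fun i => (hc0 i).abs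
  have a1 : ∀ᶠ X in 𝓝 P, Cone X := isOpen_cone.mem_nhds h1
  have a2 : ∀ᶠ X in 𝓝 P, Cross X := by
    rcases h2 with h | h
    · exact ((hc 1).eventually (gt_mem_nhds h)).mono fun X hX => Or.inl hX
    · exact ((hc 2).eventually (gt_mem_nhds h)).mono fun X hX => Or.inr hX
  filter_upwards [a1, a2, (hc 1).eventually (gt_mem_nhds h3), (hc 2).eventually (gt_mem_nhds h4)]
    with X b1 b2 b3 b4
  exact ⟨b1, b2, b3, b4⟩

def Dom : Set E3 :=
  {P | 1 / 200 ≤ P 0 ∧ P 0 ≤ 2 ∧ P 0 ^ 2 ≤ 40 * lor P P ∧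
    (|P 1| ≤ 11 / 20 * P 0 ∨ |P 2| ≤ 11 / 20 * P 0) ∧ |P 1| ≤ 9 / 10 * P 0 ∧ |P 2| ≤ 9 / 10 * P 0}

def Dom₀ : Set E3 :=
  {P | 1 / 200 < P 0 ∧ P 0 < 2 ∧ P 0 ^ 2 < 40 * lor P P ∧
    (|P 1| < 11 / 20 * P 0 ∨ |P 2| < 11 / 20 * P 0) ∧ |P 1| < 9 / 10 * P 0 ∧ |P 2| < 9 / 10 * P 0}

lemma Dom₀_sub : Dom₀ ⊆ Dom := by
  rintro P ⟨h1, h2, h3, h4, h5, h6⟩
  exact ⟨h1.le, h2.le, h3.le, h4.imp le_of_lt le_of_lt, h5.le, h6.le⟩

lemma Dom_sub : Dom ⊆ Reg := by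
  rintro P ⟨h1, h2, h3, h4, h5, h6⟩
  have h0 : 0 < P 0 := by linarith
  have e : ∀ i, |P i / P 0| = |P i| / P 0 := fun i => by rw [abs_div, abs_of_pos h0]
  refine ⟨⟨h0, by nlinarith⟩, ?_, ?_, ?_⟩
  · unfold Cross
    rw [e, e, div_lt_iff₀ h0, div_lt_iff₀ h0]
    rcases h4 with h | h
    · left; linarith
    · right; linarith
  · rw [e, div_lt_iff₀ h0]; linarith
  · rw [e, div_lt_iff₀ h0]; linarith

lemma isOpen_Dom₀ : IsOpen Dom₀ := by
  have hl : Continuous fun P : E3 => lor P P := continuous_lor continuous_id continuous_id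
  have o : ∀ f g : E3 → ℝ, Continuous f → Continuous g → IsOpen {P | f P < g P} :=
    fun f g hf hg => isOpen_lt hf hg
  exact (o _ _ (by fun_prop) (by fun_prop)).inter ((o _ _ (by fun_prop) (by fun_prop)).inter
    ((o _ _ (by fun_prop) (by fun_prop)).inter (((o _ _ (by fun_prop) (by fun_prop)).union
    (o _ _ (by fun_prop) (by fun_prop))).inter ((o _ _ (by fun_prop) (by fun_prop)).inter
    (o _ _ (by fun_prop) (by fun_prop))))))

lemma isCompact_Dom : IsCompact Dom := by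
  have hl : Continuous fun P : E3 => lor P P := continuous_lor continuous_id continuous_id
  have o : ∀ f g : E3 → ℝ, Continuous f → Continuous g → IsClosed {P | f P ≤ g P} :=
    fun f g hf hg => isClosed_le hf hg
  have hc : IsClosed Dom :=
    (o _ _ (by fun_prop) (by fun_prop)).inter ((o _ _ (by fun_prop) (by fun_prop)).inter
    ((o _ _ (by fun_prop) (by fun_prop)).inter (((o _ _ (by fun_prop) (by fun_prop)).union
    (o _ _ (by fun_prop) (by fun_prop))).inter ((o _ _ (by fun_prop) (by fun_prop)).inter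
    (o _ _ (by fun_prop) (by fun_prop))))))
  apply (isCompact_closedBall (0 : E3) 4).of_isClosed_subset hc
  rintro P ⟨h1, h2, -, -, h5, h6⟩
  rw [mem_closedBall_zero_iff]
  apply le_of_sq_le_sq _ (by norm_num) |>.trans le_rfl
  rw [norm_sq3]
  have a := abs_le.1 h5
  have b := abs_le.1 h6
  nlinarith

theorem metric : ∃ G : E3 → (E3 →L[ℝ] (E3 →L[ℝ] ℝ)), ContDiff ℝ ∞ G ∧
      (∀ x ∈ Metric.sphere (0 : E3) 1, ∀ v w : E3, G x v w = G x w v) ∧
      (∀ x ∈ Metric.sphere (0 : E3) 1, ∀ v : E3, inner ℝ x v = (0:ℝ) → v ≠ 0 → 0 < G x v v) ∧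
      ∀ z : ℝ, z ^ 2 = 1 → ∀ P ∈ Dom₀, ‖Phi z P‖ = 1 → ∀ v w : E3,
        G (Phi z P) (fderiv ℝ (Phi z) P v) (fderiv ℝ (Phi z) P w) = hyp P v w := by
  let s : Bool → ℝ := fun b => if b then 1 else -1
  have hs : ∀ b, s b ^ 2 = 1 := fun b => by cases b <;> simp [s]
  have hs0 : ∀ b, s b ≠ 0 := fun b => by cases b <;> simp [s]
  obtain ⟨G, h1, h2, h3, h4⟩ := exists_metric (fun b => Phi (s b)) isOpen_Reg Dom_sub
    (fun b P hP => Phi_smooth _ hP.1.1.ne') (fun b P hP => Phi_inj_deriv (hs0 b) hP.1 hP.2.1)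
    (fun b P hP => Phi_euler _ hP.1.1.ne') (fun P hP => hP.1.2)
    (fun b => by
      have hc : ContinuousOn (fun P => ‖Phi (s b) P‖) Dom := fun P hP =>
        (Phi_smooth _ (Dom_sub hP).1.1.ne').continuousAt.norm.continuousWithinAt
      exact isCompact_Dom.of_isClosed_subset
        (hc.preimage_isClosed_of_isClosed isCompact_Dom.isClosed (isClosed_singleton (x := 1)))
        fun P hP => hP.1)
    (fun b b' P hP P' hP' e => Phi_uniq (hs b) (hs b') hP hP' e)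
  refine ⟨G, h1, h2, h3, fun z hz P hP => ?_⟩
  rcases sq_one hz with rfl | rfl
  · exact h4 true P (Dom₀_sub hP)
  · exact h4 false P (Dom₀_sub hP)

/-- the point of the sphere with chart coordinate `P` -/
noncomputable def pt (z : ℝ) (P : E3) : E3 := ‖Phi z P‖⁻¹ • Phi z P

lemma Phi_ne {z : ℝ} (hz : z ^ 2 = 1) {P : E3} (h : Cone P) : Phi z P ≠ 0 := by
  have := (Phi_norm_bounds hz h).1
  have h0 := h.1
  rw [← norm_pos_iff]; linarith

lemma pt_eq {z : ℝ} (hz : z ^ 2 = 1) {P : E3} (h : Cone P) : pt z P = Phi z (nz (Phi z) P) := by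
  rw [nz, Phi_smul _ _ (inv_ne_zero (norm_ne_zero_iff.2 (Phi_ne hz h)))]; rfl

lemma pt_norm {z : ℝ} (hz : z ^ 2 = 1) {P : E3} (h : Cone P) : ‖pt z P‖ = 1 := by
  rw [pt, norm_smul, norm_inv, norm_norm]
  exact inv_mul_cancel₀ (norm_ne_zero_iff.2 (Phi_ne hz h))

/-- fundamental region with a compactness bound -/
def Good (P : E3) : Prop :=
  0 < P 0 ∧ P 0 ^ 2 < 40 * lor P P ∧ (|P 1| ≤ 1 / 2 * P 0 ∨ |P 2| ≤ 1 / 2 * P 0) ∧
    |P 1| ≤ 15 / 17 * P 0 ∧ |P 2| ≤ 15 / 17 * P 0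

lemma Good.cone {P : E3} (h : Good P) : Cone P := ⟨h.1, by nlinarith [h.2.1, sq_nonneg (P 0)]⟩

lemma Good.cross {P : E3} (h : Good P) : Cross P := by
  have h0 := h.1
  have e : ∀ i, |P i / P 0| = |P i| / P 0 := fun i => by rw [abs_div, abs_of_pos h0]
  unfold Cross
  rw [e, e, div_lt_iff₀ h0, div_lt_iff₀ h0]
  rcases h.2.2.1 with h | h
  · left; linarith
  · right; linarith

lemma Good.nz_mem {z : ℝ} (hz : z ^ 2 = 1) {P : E3} (h : Good P) : nz (Phi z) P ∈ Dom₀ := by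
  obtain ⟨b1, b2⟩ := Phi_norm_bounds hz h.cone
  obtain ⟨h0, h1, h2, h3, h4⟩ := h
  have hn : 0 < ‖Phi z P‖ := by linarith
  set r := ‖Phi z P‖⁻¹ with hr
  have hr0 : 0 < r := inv_pos.2 hn
  have e : ∀ i, nz (Phi z) P i = r * P i := fun i => by simp [nz, hr]
  have el : lor (nz (Phi z) P) (nz (Phi z) P) = r ^ 2 * lor P P := by
    rw [nz, lor_smul_left, lor_smul_right]; ring
  have hrn : r * ‖Phi z P‖ = 1 := inv_mul_cancel₀ hn.ne'
  have p0 := mul_pos hr0 h0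
  refine ⟨?_, ?_, ?_, ?_, ?_, ?_⟩
  · rw [e]; nlinarith
  · rw [e]; nlinarith
  · rw [e, el]
    have := mul_lt_mul_of_pos_left h1 (pow_pos hr0 2)
    linarith
  · simp only [e, abs_mul, abs_of_pos hr0]
    rcases h2 with h | h
    · left; nlinarith
    · right; nlinarith
  · simp only [e, abs_mul, abs_of_pos hr0]; nlinarith
  · simp only [e, abs_mul, abs_of_pos hr0]; nlinarith

lemma cone_geo {U V : E3} (hU : lor U U = 0) (hV : lor V V = 0) (hUV : 0 < lor U V)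
    (hU0 : 0 < U 0) (hV0 : 0 < V 0) (s : ℝ) : Cone (geo U V s) := by
  refine ⟨?_, by rw [lor_geo hU hV]; positivity⟩
  simp only [geo, PiLp.add_apply, PiLp.smul_apply, smul_eq_mul]
  positivity

theorem geo_chart {G : E3 → (E3 →L[ℝ] (E3 →L[ℝ] ℝ))} (hG : Continuous G) {m : ℝ} (hm : 0 < m)
    (hmG : ∀ x ∈ Metric.sphere (0 : E3) 1, ∀ v : E3, inner ℝ x v = (0:ℝ) →
      m * ‖v‖ ≤ Real.sqrt (G x v v))
    (hGf : ∀ z : ℝ, z ^ 2 = 1 → ∀ P ∈ Dom₀, ‖Phi z P‖ = 1 → ∀ v w : E3,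
        G (Phi z P) (fderiv ℝ (Phi z) P v) (fderiv ℝ (Phi z) P w) = hyp P v w)
    {z : ℝ} (hz : z ^ 2 = 1) {U V : E3} (hU : lor U U = 0) (hV : lor V V = 0) (hUV : 0 < lor U V)
    (hU0 : 0 < U 0) (hV0 : 0 < V 0) {t : ℝ} (ht : Good (geo U V t)) :
    ∃ ε > 0, ∀ s₁ s₂, t - ε < s₁ → s₁ ≤ s₂ → s₂ < t + ε →
      Lower G (pt z (geo U V s₁)) (pt z (geo U V s₂)) (s₂ - s₁) ∧
      Upper G (pt z (geo U V s₁)) (pt z (geo U V s₂)) (s₂ - s₁) := by
  have hc := cone_geo hU hV hUV hU0 hV0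
  have z0 : z ≠ 0 := by rintro rfl; norm_num at hz
  simp only [fun s => pt_eq hz (hc s)]
  have hR : ∀ P ∈ Dom₀, P ∈ Reg := fun P hP => Dom_sub (Dom₀_sub hP)
  apply local_geo hG hm hmG isOpen_Dom₀ (fun P hP => Phi_smooth z (hR P hP).1.1.ne')
    (fun P hP => Phi_inj_deriv z0 (hR P hP).1 (hR P hP).2.1) (hGf z hz) hU hV hUV
  · intro s r hr
    apply (Phi_smooth z _).of_le (by simp)
    have := mul_pos hr (hc s).1
    simpa using this.ne'
  · exact fun s r hr => Phi_smul z _ hr.ne'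
  · exact fun s => Phi_ne hz (hc s)
  · exact ht.nz_mem hz

end Pool.Agent.H788Z.Geo
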