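import Pool.Agent.H788Z.Geo.Local

set_option autoImplicit false

namespace Pool.Agent.H788Z.Geo

/-- the unit sphere -/
def S2 : Set E3 := Metric.sphere (0 : E3) 1

/-- fields of bilinear forms on three-space -/
abbrev Field3 : Type := E3 → (E3 →L[ℝ] (E3 →L[ℝ] ℝ))

/-- smoothness of a field of bilinear forms -/
def IsSmooth (G : Field3) : Prop := ContDiff ℝ ((⊤ : ℕ∞) : WithTop ℕ∞) G

/-- symmetric at points of the sphere -/
def IsSymm (G : Field3) : Prop := ∀ x ∈ S2, ∀ v w : E3, G x v w = G x w v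

/-- positive definite on the tangent planes of the sphere -/
def IsPos (G : Field3) : Prop :=
  ∀ x ∈ S2, ∀ v : E3, inner ℝ x v = (0:ℝ) → v ≠ 0 → 0 < G x v v

/-- unit-speed geodesic ray: locally distance realising on `[0, ∞)` -/
def IsRay (G : Field3) (c : ℝ → E3) : Prop :=
  (∀ t : ℝ, c t ∈ S2) ∧ ∀ t : ℝ, 0 ≤ t → ∃ ε > (0:ℝ), ∀ s₁ s₂ : ℝ, 0 ≤ s₁ →
    t - ε < s₁ → s₁ ≤ s₂ → s₂ < t + ε →
    Lower G (c s₁) (c s₂) (s₂ - s₁) ∧ Upper G (c s₁) (c s₂) (s₂ - s₁)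

end Pool.Agent.H788Z.Geo
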