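import Mathlib

set_option autoImplicit false

open Filter Topology Set

namespace Pool.Agent.H788Z.Geo

lemma dense_orbit {w : ℝ} (hw : Irrational w) (y : ℝ) {a b : ℝ} (hab : a < b) :
    ∃ (n : ℕ) (m : ℤ), a < y + n * w - m ∧ y + n * w - m < b := by
  have h1 : DenseRange (· • (w : AddCircle (1:ℝ)) : ℤ → AddCircle (1:ℝ)) :=
    AddCircle.denseRange_zsmul_coe_iff.2 (by simpa using hw)
  have h2 := denseRange_zsmul_iff_nsmul.1 h1
  have ho : IsOpen ((fun x : ℝ => (x : AddCircle (1:ℝ))) '' Ioo (a - y) (b - y)) :=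
    QuotientAddGroup.isOpenMap_coe _ isOpen_Ioo
  obtain ⟨n, x, hx, hxn⟩ := h2.exists_mem_open ho
    ((nonempty_Ioo.2 (by linarith)).image _)
  have : ((x : ℝ) : AddCircle (1:ℝ)) = ((n • w : ℝ) : AddCircle (1:ℝ)) := by
    rw [AddCircle.coe_nsmul]; exact hxn
  rw [QuotientAddGroup.eq] at this
  obtain ⟨m, hm⟩ := AddSubgroup.mem_zmultiples_iff.1 this
  refine ⟨n, m, ?_, ?_⟩
  · simp at hm; linarith [hx.1]
  · simp at hm; linarith [hx.2]

/-- rotation number -/
noncomputable def om : ℝ := Real.sqrt 2 / 10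

lemma om_irr : Irrational om := by
  have := irrational_sqrt_two.div_natCast (m := 10) (by norm_num)
  simpa [om] using this

lemma om_pos : 0 < om := by unfold om; positivity

lemma om_lt : om < 1 / 4 := by
  have : Real.sqrt 2 < 2 := by
    rw [Real.sqrt_lt' (by norm_num)]; norm_num
  unfold om; linarith

noncomputable def fB (t : ℝ) : ℝ := (15 + 17 * t) / (17 + 15 * t)

lemma fB_lt {s t : ℝ} (hs : 0 ≤ s) (h : s < t) : fB s < fB t := by
  unfold fB
  rw [div_lt_div_iff₀ (by linarith) (by linarith)]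
  nlinarith

lemma fB_le {s t : ℝ} (hs : 0 ≤ s) (h : s ≤ t) : fB s ≤ fB t := by
  rcases eq_or_lt_of_le h with rfl | h
  · exact le_rfl
  · exact (fB_lt hs h).le

lemma fB_ge {s : ℝ} (hs : 0 ≤ s) : 15 / 17 ≤ fB s := by
  have := fB_le le_rfl hs
  simpa [fB] using this

lemma fB_le_one {s : ℝ} (h0 : 0 ≤ s) (hs : s ≤ 1) : fB s ≤ 1 := by
  have := fB_le h0 hs
  have e : fB 1 = 1 := by norm_num [fB]
  rwa [e] at this

open unitInterval in
lemma exists_f : ∃ f : ℝ → ℝ, Monotone f ∧ (∀ x, 0 ≤ f x) ∧ (∀ x, f x ≤ 1) ∧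
    (∀ x, x < 1 - om → f x = f (x + om) / 16) ∧
    (∀ x, 1 - om ≤ x → f x = fB (f (x + om - 1))) := by
  classical
  let A : I → I := fun t => ⟨t / 16, by
    have := t.2.1; have := t.2.2; constructor <;> linarith⟩
  let B : I → I := fun t => ⟨fB t, by
    have := fB_ge t.2.1; exact ⟨by linarith, fB_le_one t.2.1 t.2.2⟩⟩
  have hA : Monotone A := fun s t h => by
    have : (s : ℝ) ≤ t := h
    show (s : ℝ) / 16 ≤ t / 16
    linarith
  have hB : Monotone B := fun s t h => fB_le s.2.1 h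
  have hAB : ∀ s t, A s ≤ B t := fun s t => by
    show (s : ℝ) / 16 ≤ fB t
    have := fB_ge t.2.1
    have := s.2.2
    linarith
  let F : (ℝ → I) →o (ℝ → I) :=
    { toFun := fun g x => if x < 1 - om then A (g (x + om)) else B (g (x + om - 1))
      monotone' := fun g g' hg x => by
        by_cases hx : x < 1 - om
        · simp only [hx, if_true]; exact hA (hg _)
        · simp only [hx, if_false]; exact hB (hg _) }
  have hF : ∀ g, Monotone g → Monotone (F g) := by
    intro g hg x y hxy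
    show (if x < 1 - om then A (g (x + om)) else B (g (x + om - 1))) ≤
      if y < 1 - om then A (g (y + om)) else B (g (y + om - 1))
    by_cases hx : x < 1 - om <;> by_cases hy : y < 1 - om
    · simp only [hx, hy, if_true]; exact hA (hg (by linarith))
    · simp only [hx, hy, if_true, if_false]; exact hAB _ _
    · exfalso; apply hx; linarith
    · simp only [hx, hy, if_false]; exact hB (hg (by linarith))
  obtain ⟨g, hg, hfix⟩ : ∃ g, Monotone g ∧ F g = g := by
    refine ⟨OrderHom.lfp F, ?_, F.map_lfp⟩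
    apply OrderHom.lfp_induction F (p := fun g => Monotone g)
    · exact fun a ha _ => hF a ha
    · intro s hs x y hxy
      simp only [sSup_apply]
      exact iSup_mono fun f => hs f.1 f.2 hxy
  have hx : ∀ x, g x = if x < 1 - om then A (g (x + om)) else B (g (x + om - 1)) := fun x =>
    (congrFun hfix x).symm
  refine ⟨fun x => g x, fun x y h => hg h, fun x => (g x).2.1, fun x => (g x).2.2,
    fun x h => ?_, fun x h => ?_⟩
  · simp only; rw [hx x, if_pos h]
  · simp only; rw [hx x, if_neg (not_lt.2 h)]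

noncomputable def ff : ℝ → ℝ := exists_f.choose

lemma ff_mono : Monotone ff := exists_f.choose_spec.1
lemma ff_nonneg (x : ℝ) : 0 ≤ ff x := exists_f.choose_spec.2.1 x
lemma ff_le_one (x : ℝ) : ff x ≤ 1 := exists_f.choose_spec.2.2.1 x
lemma ff_A {x : ℝ} (h : x < 1 - om) : ff x = ff (x + om) / 16 := exists_f.choose_spec.2.2.2.1 x h
lemma ff_B {x : ℝ} (h : 1 - om ≤ x) : ff x = fB (ff (x + om - 1)) :=
  exists_f.choose_spec.2.2.2.2 x h

lemma ff_small {x : ℝ} (h : x < 1 - om) : ff x ≤ 1 / 16 := by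
  rw [ff_A h]; linarith [ff_le_one (x + om)]

lemma ff_big {x : ℝ} (h : 1 - om ≤ x) : 15 / 17 ≤ ff x := by
  rw [ff_B h]; exact fB_ge (ff_nonneg _)

open Classical in
/-- the rotation -/
noncomputable def rot (x : ℝ) : ℝ := if x < 1 - om then x + om else x + om - 1

lemma rot_mem {x : ℝ} (h : x ∈ Ico (0:ℝ) 1) : rot x ∈ Ico (0:ℝ) 1 := by
  have := om_pos
  have := om_lt
  unfold rot
  split_ifs with h1
  · exact ⟨by linarith [h.1], by linarith⟩
  · exact ⟨by linarith, by linarith [h.2]⟩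

lemma rot_iter_mem {x : ℝ} (h : x ∈ Ico (0:ℝ) 1) (n : ℕ) : rot^[n] x ∈ Ico (0:ℝ) 1 := by
  induction n with
  | zero => exact h
  | succ n ih => rw [Function.iterate_succ_apply']; exact rot_mem ih

lemma rot_iter_eq (x : ℝ) (n : ℕ) : ∃ m : ℤ, rot^[n] x = x + n * om - m := by
  induction n with
  | zero => exact ⟨0, by simp⟩
  | succ n ih =>
    obtain ⟨m, hm⟩ := ih
    rw [Function.iterate_succ_apply', hm]
    unfold rot
    split_ifs
    · exact ⟨m, by push_cast; ring⟩
    · exact ⟨m + 1, by push_cast; ring⟩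

lemma rot_dense {x : ℝ} (h : x ∈ Ico (0:ℝ) 1) {a b : ℝ} (ha : 0 ≤ a) (hab : a < b) (hb : b ≤ 1)
    (N : ℕ) : ∃ n ≥ N, a < rot^[n] x ∧ rot^[n] x < b := by
  obtain ⟨n, m, h1, h2⟩ := dense_orbit om_irr (x + N * om) hab
  obtain ⟨m', hm'⟩ := rot_iter_eq x (N + n)
  have hmem := rot_iter_mem h (N + n)
  have : m = m' := by
    rw [hm'] at hmem
    push_cast at hmem
    have b1 : (m' : ℝ) - m < 1 := by linarith [hmem.1]
    have b2 : (-1 : ℝ) < m' - m := by linarith [hmem.2]
    have c1 : m' - m < 1 := by exact_mod_cast b1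
    have c2 : -1 < m' - m := by exact_mod_cast b2
    omega
  subst this
  refine ⟨N + n, by omega, ?_, ?_⟩ <;> rw [hm'] <;> push_cast <;> linarith

lemma ff_strict {x y : ℝ} (hx : 0 ≤ x) (hxy : x < y) (hy : y < 1) : ff x < ff y := by
  by_contra hc
  have e0 : ff x = ff y := le_antisymm (ff_mono hxy.le) (not_lt.1 hc)
  have same : ∀ a b : ℝ, a < b → ff a = ff b → (a < 1 - om ↔ b < 1 - om) := by
    intro a b hab e
    refine ⟨fun h => ?_, fun h => hab.trans h⟩
    by_contra h'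
    have := ff_small h
    have := ff_big (not_lt.1 h')
    linarith
  have key : ∀ n : ℕ, rot^[n] y - rot^[n] x = y - x ∧ ff (rot^[n] x) = ff (rot^[n] y) := by
    intro n
    induction n with
    | zero => exact ⟨rfl, e0⟩
    | succ n ih =>
      rw [Function.iterate_succ_apply', Function.iterate_succ_apply']
      set a := rot^[n] x
      set b := rot^[n] y
      have hab : a < b := by linarith [ih.1]
      have hs := same a b hab ih.2
      unfold rot
      by_cases h : a < 1 - om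
      · rw [if_pos h, if_pos (hs.1 h)]
        refine ⟨by linarith [ih.1], ?_⟩
        have := ih.2
        rw [ff_A h, ff_A (hs.1 h)] at this
        linarith
      · have h' : ¬ b < 1 - om := fun h' => h (hs.2 h')
        rw [if_neg h, if_neg h']
        refine ⟨by linarith [ih.1], ?_⟩
        have := ih.2
        rw [ff_B (not_lt.1 h), ff_B (not_lt.1 h')] at this
        by_contra hne
        have hlt : ff (a + om - 1) < ff (b + om - 1) :=
          lt_of_le_of_ne (ff_mono (by linarith)) hne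
        exact absurd this (fB_lt (ff_nonneg _) hlt).ne
  have o1 := om_pos
  have o2 := om_lt
  obtain ⟨n, -, h1, h2⟩ := rot_dense (x := x) ⟨hx, hxy.trans hy⟩
    (a := max 0 (1 - om - (y - x))) (b := 1 - om) (le_max_left _ _)
    (max_lt (by linarith) (by linarith)) (by linarith) 0
  have h3 := (le_max_right _ _).trans_lt h1
  obtain ⟨k1, k2⟩ := key n
  have := (same _ _ (by linarith) k2).1 h2
  linarith

/-- the orbit coding the ray -/
noncomputable def xs (n : ℕ) : ℝ := rot^[n] (1 / 4)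

lemma xs_succ (n : ℕ) : xs (n + 1) = rot (xs n) := Function.iterate_succ_apply' _ _ _

lemma xs_mem (n : ℕ) : xs n ∈ Ico (0:ℝ) 1 := rot_iter_mem ⟨by norm_num, by norm_num⟩ n

lemma irr_aux {k : ℤ} {c : ℚ} (h : (k : ℝ) * om = c) : k = 0 := by
  by_contra hk
  exact (om_irr.intCast_mul hk) ⟨c, h.symm⟩

lemma xs_pos (n : ℕ) : 0 < xs n := by
  refine lt_of_le_of_ne (xs_mem n).1 fun h => ?_
  obtain ⟨m, hm⟩ := rot_iter_eq (1 / 4) n
  rw [xs, hm] at h
  have h1 : ((n : ℤ) : ℝ) * om = ((m - 1 / 4 : ℚ) : ℝ) := by push_cast; linarith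
  have h2 := irr_aux h1
  have h3 : (n : ℝ) = 0 := by exact_mod_cast h2
  rw [h3] at h
  have h4 : ((4 * m : ℤ) : ℝ) = ((1 : ℤ) : ℝ) := by push_cast; linarith
  have h5 : 4 * m = 1 := by exact_mod_cast h4
  omega

lemma xs_inj {n n' : ℕ} (h : xs n = xs n') : n = n' := by
  obtain ⟨m, hm⟩ := rot_iter_eq (1 / 4) n
  obtain ⟨m', hm'⟩ := rot_iter_eq (1 / 4) n'
  rw [xs, xs, hm, hm'] at h
  have h1 : (((n : ℤ) - n' : ℤ) : ℝ) * om = ((m - m' : ℚ) : ℝ) := by push_cast; linarith
  have := irr_aux h1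
  omega

lemma xs_ne (n n' : ℕ) : xs n ≠ 1 - xs n' := by
  intro h
  obtain ⟨m, hm⟩ := rot_iter_eq (1 / 4) n
  obtain ⟨m', hm'⟩ := rot_iter_eq (1 / 4) n'
  rw [xs, xs, hm, hm'] at h
  have h1 : (((n : ℤ) + n' : ℤ) : ℝ) * om = ((m + m' + 1 / 2 : ℚ) : ℝ) := by push_cast; linarith
  have h2 := irr_aux h1
  rw [h2] at h1
  have h4 : ((2 * (m + m') + 1 : ℤ) : ℝ) = ((0 : ℤ) : ℝ) := by push_cast at h1 ⊢; linarith
  have h5 : 2 * (m + m') + 1 = 0 := by exact_mod_cast h4
  omega

lemma xs_dense {a b : ℝ} (ha : 0 ≤ a) (hab : a < b) (hb : b ≤ 1) (N : ℕ) :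
    ∃ n ≥ N, a < xs n ∧ xs n < b := rot_dense ⟨by norm_num, by norm_num⟩ ha hab hb N

end Pool.Agent.H788Z.Geo
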