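import Pool.Agent.H788Z.Geo.Chart
import Pool.Agent.H788Z.Geo.Lam

set_option autoImplicit false

open Filter Topology Set
open scoped ContDiff

namespace Pool.Agent.H788Z.Geo

noncomputable def up (p : ℝ) : E3 := !₂[1 + p ^ 2, 1 - p ^ 2, 2 * p]
noncomputable def vp (q : ℝ) : E3 := !₂[1 + q ^ 2, q ^ 2 - 1, -(2 * q)]

@[simp] lemma up_0 (p : ℝ) : up p 0 = 1 + p ^ 2 := rfl
@[simp] lemma up_1 (p : ℝ) : up p 1 = 1 - p ^ 2 := rfl
@[simp] lemma up_2 (p : ℝ) : up p 2 = 2 * p := rfl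
@[simp] lemma vp_0 (p : ℝ) : vp p 0 = 1 + p ^ 2 := rfl
@[simp] lemma vp_1 (p : ℝ) : vp p 1 = p ^ 2 - 1 := rfl
@[simp] lemma vp_2 (p : ℝ) : vp p 2 = -(2 * p) := rfl

/-- boost along the first axis -/
noncomputable def Bo : E3 →L[ℝ] E3 := (Ng (-1) 1).comp Rf
/-- boost along the second axis -/
noncomputable def Bb : E3 →L[ℝ] E3 := Sw.comp (Bo.comp Sw)

@[simp] lemma Bo_0 (P : E3) : Bo P 0 = (257 * P 0 - 255 * P 1) / 32 := by simp [Bo]
@[simp] lemma Bo_1 (P : E3) : Bo P 1 = (257 * P 1 - 255 * P 0) / 32 := by simp [Bo]; ring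
@[simp] lemma Bo_2 (P : E3) : Bo P 2 = P 2 := by simp [Bo]
@[simp] lemma Bb_0 (P : E3) : Bb P 0 = (257 * P 0 - 255 * P 2) / 32 := by simp [Bb]
@[simp] lemma Bb_1 (P : E3) : Bb P 1 = P 1 := by simp [Bb]
@[simp] lemma Bb_2 (P : E3) : Bb P 2 = (257 * P 2 - 255 * P 0) / 32 := by simp [Bb]

lemma Bo_up (p : ℝ) : Bo (up (p / 16)) = (1 / 16 : ℝ) • up p := by
  apply ext3 <;> simp <;> ring

lemma Bo_vp (q : ℝ) : Bo (vp q) = (16 : ℝ) • vp (q / 16) := by
  apply ext3 <;> simp <;> ring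

lemma Bb_up {p : ℝ} (h : 0 ≤ p) : Bb (up (fB p)) = (64 / (17 + 15 * p) ^ 2 : ℝ) • up p := by
  have : 17 + 15 * p ≠ 0 := by positivity
  apply ext3 <;> simp [fB] <;> field_simp <;> ring

lemma Bb_vp {q : ℝ} (h : 0 ≤ q) : Bb (vp q) = ((17 + 15 * q) ^ 2 / 64 : ℝ) • vp (fB q) := by
  have : 17 + 15 * q ≠ 0 := by positivity
  apply ext3 <;> simp [fB] <;> field_simp <;> ring

/-- type of the `n`-th exit -/
def tA (n : ℕ) : Prop := xs n < 1 - om

open Classical in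
noncomputable def W (n : ℕ) : E3 →L[ℝ] E3 := if tA n then Bo else Bb

noncomputable def pn (n : ℕ) : ℝ := ff (xs n)
noncomputable def qn (n : ℕ) : ℝ := ff (1 - xs n)

noncomputable def UU : ℕ → E3
  | 0 => up (pn 0)
  | n + 1 => W n (UU n)

noncomputable def VV : ℕ → E3
  | 0 => vp (qn 0)
  | n + 1 => W n (VV n)

lemma xs_A {n : ℕ} (h : tA n) : xs (n + 1) = xs n + om := by
  rw [xs_succ, rot, if_pos (show xs n < 1 - om from h)]

lemma xs_B {n : ℕ} (h : ¬ tA n) : xs (n + 1) = xs n + om - 1 := by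
  rw [xs_succ, rot, if_neg (show ¬ xs n < 1 - om from h)]

lemma pn_A {n : ℕ} (h : tA n) : pn n = pn (n + 1) / 16 := by
  rw [pn, pn, ff_A h, xs_A h]

lemma pn_B {n : ℕ} (h : ¬ tA n) : pn n = fB (pn (n + 1)) := by
  rw [pn, pn, ff_B (not_lt.1 h), xs_B h]

lemma qn_A {n : ℕ} (h : tA n) : qn (n + 1) = qn n / 16 := by
  rw [qn, qn, xs_A h, ff_A (by linarith [xs_pos n])]
  congr 2; ring

lemma qn_B {n : ℕ} (h : ¬ tA n) : qn (n + 1) = fB (qn n) := by
  rw [qn, qn, xs_B h, ff_B (by linarith [(xs_mem n).2])]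
  congr 2; ring

lemma UU_eq (n : ℕ) : ∃ u > (0:ℝ), UU n = u • up (pn n) := by
  induction n with
  | zero => exact ⟨1, one_pos, by simp [UU]⟩
  | succ n ih =>
    obtain ⟨u, hu, e⟩ := ih
    have h0 : 0 ≤ pn (n + 1) := ff_nonneg _
    rw [UU, e, map_smul, W]
    split_ifs with h
    · rw [pn_A h, Bo_up, smul_smul]; exact ⟨_, by positivity, rfl⟩
    · rw [pn_B h, Bb_up h0, smul_smul]; exact ⟨_, by positivity, rfl⟩

lemma VV_eq (n : ℕ) : ∃ v > (0:ℝ), VV n = v • vp (qn n) := by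
  induction n with
  | zero => exact ⟨1, one_pos, by simp [VV]⟩
  | succ n ih =>
    obtain ⟨u, hu, e⟩ := ih
    have h0 : 0 ≤ qn n := ff_nonneg _
    rw [VV, e, map_smul, W]
    split_ifs with h
    · rw [qn_A h, Bo_vp, smul_smul]; exact ⟨_, by positivity, rfl⟩
    · rw [qn_B h, Bb_vp h0, smul_smul]; exact ⟨_, by positivity, rfl⟩

lemma W_lor (n : ℕ) (x y : E3) : lor (W n x) (W n y) = lor x y := by
  unfold W
  split_ifs
  · simp only [lor, Bo_0, Bo_1, Bo_2]; ring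
  · simp only [lor, Bb_0, Bb_1, Bb_2]; ring

lemma lor_UV (n : ℕ) : lor (UU n) (VV n) = lor (UU 0) (VV 0) := by
  induction n with
  | zero => rfl
  | succ n ih => exact (W_lor n _ _).trans ih

/-- null vector in the first quadrant -/
def Fut (U : E3) : Prop := lor U U = 0 ∧ 0 < U 0 ∧ 0 ≤ U 1 ∧ 0 ≤ U 2
/-- null vector in the third quadrant -/
def Past (V : E3) : Prop := lor V V = 0 ∧ 0 < V 0 ∧ V 1 ≤ 0 ∧ V 2 ≤ 0

lemma fut_up {u p : ℝ} (hu : 0 < u) (h0 : 0 ≤ p) (h1 : p ≤ 1) : Fut (u • up p) := by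
  refine ⟨by simp [lor]; ring, by simp; positivity, ?_, by simp; positivity⟩
  simp only [PiLp.smul_apply, up_1, smul_eq_mul]
  apply mul_nonneg hu.le; nlinarith

lemma past_vp {u p : ℝ} (hu : 0 < u) (h0 : 0 ≤ p) (h1 : p ≤ 1) : Past (u • vp p) := by
  refine ⟨by simp [lor]; ring, by simp; positivity, ?_, ?_⟩
  · simp only [PiLp.smul_apply, vp_1, smul_eq_mul]
    apply mul_nonpos_of_nonneg_of_nonpos hu.le; nlinarith
  · simp only [PiLp.smul_apply, vp_2, smul_eq_mul]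
    apply mul_nonpos_of_nonneg_of_nonpos hu.le; linarith

lemma fut_UU (n : ℕ) : Fut (UU n) := by
  obtain ⟨u, hu, e⟩ := UU_eq n
  rw [e]; exact fut_up hu (ff_nonneg _) (ff_le_one _)

lemma past_VV (n : ℕ) : Past (VV n) := by
  obtain ⟨u, hu, e⟩ := VV_eq n
  rw [e]; exact past_vp hu (ff_nonneg _) (ff_le_one _)

lemma lor_ge {U V : E3} (hU : Fut U) (hV : Past V) : U 0 * V 0 ≤ lor U V := by
  unfold lor
  nlinarith [mul_nonneg hU.2.2.1 (neg_nonneg.2 hV.2.2.1),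
    mul_nonneg hU.2.2.2 (neg_nonneg.2 hV.2.2.2)]

lemma lor_UV_pos (n : ℕ) : 0 < lor (UU n) (VV n) :=
  (mul_pos (fut_UU n).2.1 (past_VV n).2.1).trans_le (lor_ge (fut_UU n) (past_VV n))

lemma UU_A {n : ℕ} (h : tA n) : UU n 2 ≤ UU n 0 / 8 := by
  obtain ⟨u, hu, e⟩ := UU_eq n
  have : pn n ≤ 1 / 16 := ff_small h
  rw [e]; simp only [PiLp.smul_apply, up_0, up_2, smul_eq_mul]
  nlinarith [sq_nonneg (pn n)]

lemma UU_B {n : ℕ} (h : ¬ tA n) : UU n 1 ≤ UU n 0 / 8 := by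
  obtain ⟨u, hu, e⟩ := UU_eq n
  have : 15 / 17 ≤ pn n := ff_big (not_lt.1 h)
  have h2 : 7 ≤ 9 * pn n ^ 2 := by nlinarith
  rw [e]; simp only [PiLp.smul_apply, up_0, up_1, smul_eq_mul]
  nlinarith

lemma VV_small {n : ℕ} (h : qn n ≤ 1 / 16) : -VV n 2 ≤ VV n 0 / 8 := by
  obtain ⟨u, hu, e⟩ := VV_eq n
  rw [e]; simp only [PiLp.smul_apply, vp_0, vp_2, smul_eq_mul]
  nlinarith [sq_nonneg (qn n)]

lemma VV_A {n : ℕ} (h : tA n) : -VV (n + 1) 2 ≤ VV (n + 1) 0 / 8 := by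
  apply VV_small
  rw [qn_A h]; linarith [show qn n ≤ 1 from ff_le_one _]

lemma VV_B {n : ℕ} (h : ¬ tA n) : -VV (n + 1) 1 ≤ VV (n + 1) 0 / 8 := by
  obtain ⟨u, hu, e⟩ := VV_eq (n + 1)
  have : 15 / 17 ≤ qn (n + 1) := by rw [qn_B h]; exact fB_ge (ff_nonneg _)
  have h2 : 7 ≤ 9 * qn (n + 1) ^ 2 := by nlinarith
  rw [e]; simp only [PiLp.smul_apply, vp_0, vp_1, smul_eq_mul]
  nlinarith

lemma null_le {a b c : ℝ} (h : a * a - b * b - c * c = 0) (ha : 0 < a) : b ≤ a := by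
  nlinarith [sq_nonneg c, abs_le_of_sq_le_sq' (show b ^ 2 ≤ a ^ 2 by nlinarith [sq_nonneg c]) ha.le]

lemma null_ge {a b c : ℝ} (h : a * a - b * b - c * c = 0) (ha : 0 < a) (hb : 0 ≤ b) (hc : 0 ≤ c)
    (h8 : c ≤ a / 8) : 99 / 100 * a ≤ b := by
  apply le_of_sq_le_sq _ hb |>.trans le_rfl
  nlinarith

lemma Fut.le1 {U : E3} (h : Fut U) : U 1 ≤ U 0 := null_le h.1 h.2.1
lemma Fut.le2 {U : E3} (h : Fut U) : U 2 ≤ U 0 :=
  null_le (c := U 1) (by have := h.1; unfold lor at this; linarith) h.2.1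
lemma Past.le1 {U : E3} (h : Past U) : -U 1 ≤ U 0 :=
  null_le (c := U 2) (by have := h.1; unfold lor at this; linarith) h.2.1
lemma Past.le2 {U : E3} (h : Past U) : -U 2 ≤ U 0 :=
  null_le (c := U 1) (by have := h.1; unfold lor at this; linarith) h.2.1
lemma Fut.geA {U : E3} (h : Fut U) (h8 : U 2 ≤ U 0 / 8) : 99 / 100 * U 0 ≤ U 1 :=
  null_ge h.1 h.2.1 h.2.2.1 h.2.2.2 h8
lemma Fut.geB {U : E3} (h : Fut U) (h8 : U 1 ≤ U 0 / 8) : 99 / 100 * U 0 ≤ U 2 :=
  null_ge (c := U 1) (by have := h.1; unfold lor at this; linarith) h.2.1 h.2.2.2 h.2.2.1 h8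
lemma Past.geA {U : E3} (h : Past U) (h8 : -U 2 ≤ U 0 / 8) : 99 / 100 * U 0 ≤ -U 1 :=
  null_ge (c := -U 2) (by have := h.1; unfold lor at this; linarith) h.2.1
    (by linarith [h.2.2.1]) (by linarith [h.2.2.2]) h8
lemma Past.geB {U : E3} (h : Past U) (h8 : -U 1 ≤ U 0 / 8) : 99 / 100 * U 0 ≤ -U 2 :=
  null_ge (c := -U 1) (by have := h.1; unfold lor at this; linarith) h.2.1
    (by linarith [h.2.2.2]) (by linarith [h.2.2.1]) h8

lemma Fut.smul {U : E3} (h : Fut U) {a : ℝ} (ha : 0 < a) : Fut (a • U) := by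
  refine ⟨by rw [lor_smul_left, lor_smul_right, h.1]; simp, ?_, ?_, ?_⟩ <;>
    simp only [PiLp.smul_apply, smul_eq_mul]
  · exact mul_pos ha h.2.1
  · exact mul_nonneg ha.le h.2.2.1
  · exact mul_nonneg ha.le h.2.2.2

lemma Past.smul {U : E3} (h : Past U) {a : ℝ} (ha : 0 < a) : Past (a • U) := by
  refine ⟨by rw [lor_smul_left, lor_smul_right, h.1]; simp, ?_, ?_, ?_⟩ <;>
    simp only [PiLp.smul_apply, smul_eq_mul]
  · exact mul_pos ha h.2.1
  · exact mul_nonpos_of_nonneg_of_nonpos ha.le h.2.2.1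
  · exact mul_nonpos_of_nonneg_of_nonpos ha.le h.2.2.2

lemma good_sum {U V : E3} (hU : Fut U) (hV : Past V)
    (h1 : (U 2 ≤ U 0 / 8 ∧ 17 * (U + V) 1 ≤ 15 * (U + V) 0) ∨
      (U 1 ≤ U 0 / 8 ∧ 17 * (U + V) 2 ≤ 15 * (U + V) 0))
    (h2 : (-V 2 ≤ V 0 / 8 ∧ -(17 * (U + V) 1) ≤ 15 * (U + V) 0) ∨
      (-V 1 ≤ V 0 / 8 ∧ -(17 * (U + V) 2) ≤ 15 * (U + V) 0)) : Good (U + V) := by
  have l : lor (U + V) (U + V) = 2 * lor U V := by
    rw [lor_add_left, lor_add_right, lor_add_right, hU.1, hV.1, lor_comm V U]; ring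
  have lg := lor_ge hU hV
  have u1 := hU.le1
  have u2 := hU.le2
  have v1 := hV.le1
  have v2 := hV.le2
  have a1 := hU.geA
  have a2 := hU.geB
  have b1 := hV.geA
  have b2 := hV.geB
  obtain ⟨-, u0, u1', u2'⟩ := hU
  obtain ⟨-, v0, v1', v2'⟩ := hV
  unfold Good
  rw [l]
  simp only [PiLp.add_apply, abs_le] at *
  have r1 : U 0 ≤ 18 * V 0 := by
    rcases h1 with ⟨h, h'⟩ | ⟨h, h'⟩
    · linarith [a1 h]
    · linarith [a2 h]
  have r2 : V 0 ≤ 18 * U 0 := by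
    rcases h2 with ⟨h, h'⟩ | ⟨h, h'⟩
    · linarith [b1 h]
    · linarith [b2 h]
  refine ⟨by linarith, ?_, ?_, ?_, ?_⟩
  · nlinarith [mul_nonneg (sub_nonneg.2 r1) u0.le, mul_nonneg (sub_nonneg.2 r2) v0.le,
      mul_pos u0 v0]
  · rcases h1 with ⟨h, -⟩ | ⟨h, -⟩ <;> rcases h2 with ⟨h', -⟩ | ⟨h', -⟩
    · right; constructor <;> linarith
    · by_cases hc : U 1 + V 1 ≤ 1 / 2 * (U 0 + V 0)
      · left; constructor <;> linarith
      · right; constructor <;> linarith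
    · by_cases hc : U 2 + V 2 ≤ 1 / 2 * (U 0 + V 0)
      · right; constructor <;> linarith
      · left; constructor <;> linarith
    · left; constructor <;> linarith
  · rcases h1 with ⟨h, h3⟩ | ⟨h, h3⟩ <;> rcases h2 with ⟨h', h4⟩ | ⟨h', h4⟩ <;>
      constructor <;> linarith
  · rcases h1 with ⟨h, h3⟩ | ⟨h, h3⟩ <;> rcases h2 with ⟨h', h4⟩ | ⟨h', h4⟩ <;>
      constructor <;> linarith

lemma strict_sum {U V : E3} (hU : Fut U) (hV : Past V)
    (h1 : (U 2 ≤ U 0 / 8 ∧ 17 * (U + V) 1 < 15 * (U + V) 0) ∨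
      (U 1 ≤ U 0 / 8 ∧ 17 * (U + V) 2 < 15 * (U + V) 0))
    (h2 : (-V 2 ≤ V 0 / 8 ∧ -(17 * (U + V) 1) < 15 * (U + V) 0) ∨
      (-V 1 ≤ V 0 / 8 ∧ -(17 * (U + V) 2) < 15 * (U + V) 0)) :
    |(U + V) 1| < 15 / 17 * (U + V) 0 ∧ |(U + V) 2| < 15 / 17 * (U + V) 0 := by
  obtain ⟨-, u0, u1', u2'⟩ := hU
  obtain ⟨-, v0, v1', v2'⟩ := hV
  simp only [PiLp.add_apply, abs_lt] at *
  rcases h1 with ⟨h, h3⟩ | ⟨h, h3⟩ <;> rcases h2 with ⟨h', h4⟩ | ⟨h', h4⟩ <;>
    refine ⟨⟨?_, ?_⟩, ?_, ?_⟩ <;> linarith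

open Classical in
/-- exit functional -/
noncomputable def ex (n : ℕ) (P : E3) : ℝ := if tA n then 17 * P 1 - 15 * P 0 else 17 * P 2 - 15 * P 0

open Classical in
/-- entry functional of the next frame -/
noncomputable def en (n : ℕ) (P : E3) : ℝ :=
  if tA n then -(17 * P 1) - 15 * P 0 else -(17 * P 2) - 15 * P 0

lemma en_W (n : ℕ) (P : E3) : en n (W n P) = -ex n P := by
  unfold en W ex
  split_ifs
  · simp only [Bo_0, Bo_1]; ring
  · simp only [Bb_0, Bb_2]; ring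

/-- the geodesic in the `n`-th frame -/
noncomputable def gn (n : ℕ) (s : ℝ) : E3 := geo (UU n) (VV n) s

lemma map_geo (g : E3 →L[ℝ] E3) (U V : E3) (s : ℝ) : g (geo U V s) = geo (g U) (g V) s := by
  simp [geo]

lemma gn_succ (n : ℕ) (s : ℝ) : gn (n + 1) s = W n (gn n s) := by
  rw [gn, gn, map_geo]; rfl

lemma ex_gn (n : ℕ) (s : ℝ) :
    ex n (gn n s) = Real.exp s * ex n (UU n) + Real.exp (-s) * ex n (VV n) := by
  unfold ex gn geo
  split_ifs <;> simp only [PiLp.add_apply, PiLp.smul_apply, smul_eq_mul] <;> ring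

lemma en_gn (n m : ℕ) (s : ℝ) :
    en n (gn m s) = Real.exp s * en n (UU m) + Real.exp (-s) * en n (VV m) := by
  unfold en gn geo
  split_ifs <;> simp only [PiLp.add_apply, PiLp.smul_apply, smul_eq_mul] <;> ring

lemma ex_UU (n : ℕ) : 0 < ex n (UU n) ∧ ex n (UU n) ≤ 2 * UU n 0 := by
  have h := fut_UU n
  unfold ex
  split_ifs with a
  · exact ⟨by linarith [h.geA (UU_A a), h.2.1], by linarith [h.le1]⟩
  · exact ⟨by linarith [h.geB (UU_B a), h.2.1], by linarith [h.le2]⟩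

lemma ex_VV (n : ℕ) : ex n (VV n) ≤ -(15 * VV n 0) := by
  have h := past_VV n
  unfold ex
  split_ifs
  · linarith [h.2.2.1]
  · linarith [h.2.2.2]

lemma en_VV (n m : ℕ) : en n (VV m) ≤ 2 * VV m 0 := by
  have h := past_VV m
  unfold en
  split_ifs
  · linarith [h.le1]
  · linarith [h.le2]

lemma en_UU (n m : ℕ) : en n (UU m) ≤ -(15 * UU m 0) := by
  have h := fut_UU m
  unfold en
  split_ifs
  · linarith [h.2.2.1]
  · linarith [h.2.2.2]

/-- exit time from the `n`-th frame -/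
noncomputable def tau (n : ℕ) : ℝ := Real.log (-ex n (VV n) / ex n (UU n)) / 2

lemma ex_formula (n : ℕ) (s : ℝ) : ex n (gn n s) =
    Real.exp (-s) * ex n (UU n) * (Real.exp (2 * s) - Real.exp (2 * tau n)) := by
  have h1 := (ex_UU n).1
  have h2 := ex_VV n
  have h3 := (past_VV n).2.1
  have e : Real.exp (2 * tau n) = -ex n (VV n) / ex n (UU n) := by
    rw [tau, mul_div_cancel₀ _ two_ne_zero, Real.exp_log (div_pos (by linarith) h1)]
  have e2 : Real.exp s = Real.exp (-s) * Real.exp (2 * s) := by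
    rw [← Real.exp_add]; congr 1; ring
  rw [ex_gn, e, e2]; field_simp; ring

lemma ex_tau (n : ℕ) : ex n (gn n (tau n)) = 0 := by rw [ex_formula]; simp

lemma ex_neg {n : ℕ} {s : ℝ} (h : s < tau n) : ex n (gn n s) < 0 := by
  rw [ex_formula]
  apply mul_neg_of_pos_of_neg (mul_pos (Real.exp_pos _) (ex_UU n).1)
  exact sub_neg.2 (Real.exp_lt_exp.2 (by linarith))

lemma ex_pos {n : ℕ} {s : ℝ} (h : tau n < s) : 0 < ex n (gn n s) := by
  rw [ex_formula]
  apply mul_pos (mul_pos (Real.exp_pos _) (ex_UU n).1)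
  exact sub_pos.2 (Real.exp_lt_exp.2 (by linarith))

lemma en_tau (n : ℕ) : en n (gn (n + 1) (tau n)) = 0 := by
  rw [gn_succ, en_W, ex_tau, neg_zero]

lemma en_neg {n : ℕ} {s : ℝ} (h : tau n < s) : en n (gn (n + 1) s) < 0 := by
  rw [gn_succ, en_W]; linarith [ex_pos h]

lemma tau_gap (n : ℕ) : tau n + 1 ≤ tau (n + 1) := by
  have h1 := en_tau n
  have h2 := ex_tau (n + 1)
  rw [en_gn] at h1
  rw [ex_gn] at h2
  set U0 := UU (n + 1) 0
  set V0 := VV (n + 1) 0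
  have u0 : 0 < U0 := (fut_UU _).2.1
  have v0 : 0 < V0 := (past_VV _).2.1
  set a := tau n
  set b := tau (n + 1)
  have k1 : Real.exp a * (15 * U0) ≤ Real.exp (-a) * (2 * V0) := by
    have := mul_le_mul_of_nonneg_left (en_UU n (n + 1)) (Real.exp_pos a).le
    have := mul_le_mul_of_nonneg_left (en_VV n (n + 1)) (Real.exp_pos (-a)).le
    linarith
  have k2 : Real.exp (-b) * (15 * V0) ≤ Real.exp b * (2 * U0) := by
    have := mul_le_mul_of_nonneg_left (ex_UU (n + 1)).2 (Real.exp_pos b).le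
    have := mul_le_mul_of_nonneg_left (ex_VV (n + 1)) (Real.exp_pos (-b)).le
    linarith
  have k3 := mul_le_mul k1 k2 (by positivity) (by positivity)
  by_contra hc
  push Not at hc
  have e1 : Real.exp b * Real.exp (-a) = Real.exp (b - a) := by
    rw [← Real.exp_add]; congr 1
  have e2 : Real.exp a * Real.exp (-b) * Real.exp (b - a) = 1 := by
    rw [← Real.exp_add, ← Real.exp_add, show a + -b + (b - a) = 0 by ring, Real.exp_zero]
  have e3 : Real.exp (b - a) < 3 :=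
    (Real.exp_lt_exp.2 (by linarith : b - a < 1)).trans (by linarith [Real.exp_one_lt_d9])
  have p := Real.exp_pos (b - a)
  have k4 : 225 * (Real.exp a * Real.exp (-b)) ≤ 4 * Real.exp (b - a) := by
    rw [← e1]
    have uv := mul_pos u0 v0
    apply le_of_mul_le_mul_right _ uv
    linarith
  have k5 := mul_le_mul_of_nonneg_right k4 p.le
  nlinarith

lemma tau_mono : StrictMono tau := strictMono_nat_of_lt_succ fun n => by linarith [tau_gap n]

lemma tau_ge (n : ℕ) : tau 0 + n ≤ tau n := by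
  induction n with
  | zero => simp
  | succ n ih => push_cast; linarith [tau_gap n]

lemma good_gn {n : ℕ} {s : ℝ} (h : s ∈ Icc (tau n) (tau (n + 1))) : Good (gn (n + 1) s) := by
  have h1 : ex (n + 1) (gn (n + 1) s) ≤ 0 := by
    rcases eq_or_lt_of_le h.2 with e | e
    · rw [e, ex_tau]
    · exact (ex_neg e).le
  have h2 : en n (gn (n + 1) s) ≤ 0 := by
    rcases eq_or_lt_of_le h.1 with e | e
    · rw [← e, en_tau]
    · exact (en_neg e).le
  have p := Real.exp_pos s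
  have p' := Real.exp_pos (-s)
  apply good_sum ((fut_UU _).smul p) ((past_VV _).smul p')
  · unfold ex at h1
    split_ifs at h1 with a
    · left
      refine ⟨?_, by unfold gn geo at h1; linarith⟩
      simp only [PiLp.smul_apply, smul_eq_mul]; nlinarith [UU_A a]
    · right
      refine ⟨?_, by unfold gn geo at h1; linarith⟩
      simp only [PiLp.smul_apply, smul_eq_mul]; nlinarith [UU_B a]
  · unfold en at h2
    split_ifs at h2 with a
    · left
      refine ⟨?_, by unfold gn geo at h2; linarith⟩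
      simp only [PiLp.smul_apply, smul_eq_mul]; nlinarith [VV_A a]
    · right
      refine ⟨?_, by unfold gn geo at h2; linarith⟩
      simp only [PiLp.smul_apply, smul_eq_mul]; nlinarith [VV_B a]

lemma strict_gn {n : ℕ} {s : ℝ} (h : s ∈ Ioo (tau n) (tau (n + 1))) :
    |gn (n + 1) s 1| < 15 / 17 * gn (n + 1) s 0 ∧ |gn (n + 1) s 2| < 15 / 17 * gn (n + 1) s 0 := by
  have h1 := ex_neg h.2
  have h2 := en_neg h.1
  have p := Real.exp_pos s
  have p' := Real.exp_pos (-s)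
  apply strict_sum ((fut_UU _).smul p) ((past_VV _).smul p')
  · unfold ex at h1
    split_ifs at h1 with a
    · left
      refine ⟨?_, by unfold gn geo at h1; linarith⟩
      simp only [PiLp.smul_apply, smul_eq_mul]; nlinarith [UU_A a]
    · right
      refine ⟨?_, by unfold gn geo at h1; linarith⟩
      simp only [PiLp.smul_apply, smul_eq_mul]; nlinarith [UU_B a]
  · unfold en at h2
    split_ifs at h2 with a
    · left
      refine ⟨?_, by unfold gn geo at h2; linarith⟩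
      simp only [PiLp.smul_apply, smul_eq_mul]; nlinarith [VV_A a]
    · right
      refine ⟨?_, by unfold gn geo at h2; linarith⟩
      simp only [PiLp.smul_apply, smul_eq_mul]; nlinarith [VV_B a]

lemma cone_gn (n : ℕ) (s : ℝ) : Cone (gn n s) :=
  cone_geo (fut_UU n).1 (past_VV n).1 (lor_UV_pos n) (fut_UU n).2.1 (past_VV n).2.1 s

end Pool.Agent.H788Z.Geo
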