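import Pool.Agent.H788Z.Geo.Alg

set_option autoImplicit false

open Filter Topology Set
open scoped ContDiff Manifold

namespace Pool.Agent.H788Z.Geo

/-- local smooth inverse of a local diffeomorphism of three-space -/
lemma local_inv {f : E3 → E3} {O : Set E3} (hO : IsOpen O)
    (hs : ∀ P ∈ O, ContDiffAt ℝ ∞ f P) (hi : ∀ P ∈ O, Function.Injective (fderiv ℝ f P))
    {P₀ : E3} (h₀ : P₀ ∈ O) :
    ∃ r > 0, ∃ F : E3 → E3, ContDiffOn ℝ ∞ F (Metric.ball (f P₀) r) ∧
      (∀ y ∈ Metric.ball (f P₀) r, F y ∈ O) ∧ (∀ y ∈ Metric.ball (f P₀) r, f (F y) = y) ∧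
      (∀ y ∈ Metric.ball (f P₀) r, ∀ v, fderiv ℝ f (F y) (fderiv ℝ F y v) = v) ∧
      ∀ᶠ P in 𝓝 P₀, F (f P) = P := by
  have hE : ∀ P ∈ O, ∃ e : E3 ≃L[ℝ] E3, HasFDerivAt f (e : E3 →L[ℝ] E3) P := by
    intro P hP
    have hd : HasFDerivAt f (fderiv ℝ f P) P :=
      ((hs P hP).differentiableAt (by simp)).hasFDerivAt
    refine ⟨(LinearEquiv.ofInjectiveEndo (fderiv ℝ f P : E3 →ₗ[ℝ] E3)
      (hi P hP)).toContinuousLinearEquiv, ?_⟩
    convert hd using 1
    ext v; simp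
  obtain ⟨e₀, he₀⟩ := hE P₀ h₀
  set e := (hs P₀ h₀).toOpenPartialHomeomorph f he₀ (by simp) with he
  have hsrc : P₀ ∈ e.source := (hs P₀ h₀).mem_toOpenPartialHomeomorph_source he₀ (by simp)
  have htgt : f P₀ ∈ e.target := (hs P₀ h₀).image_mem_toOpenPartialHomeomorph_target he₀ (by simp)
  have hef : (e : E3 → E3) = f := rfl
  have hopen : IsOpen (e.target ∩ e.symm ⁻¹' O) := e.isOpen_inter_preimage_symm hO
  have hmem : f P₀ ∈ e.target ∩ e.symm ⁻¹' O := by
    refine ⟨htgt, ?_⟩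
    have : e.symm (e P₀) = P₀ := e.left_inv hsrc
    rw [hef] at this
    simpa [this] using h₀
  obtain ⟨r, hr, hball⟩ := Metric.isOpen_iff.1 hopen _ hmem
  have hCA : ∀ y ∈ Metric.ball (f P₀) r, ContDiffAt ℝ ∞ e.symm y := by
    intro y hy
    obtain ⟨e₁, he₁⟩ := hE _ (hball hy).2
    exact e.contDiffAt_symm (hball hy).1 he₁ (hs _ (hball hy).2)
  have hright : ∀ y ∈ Metric.ball (f P₀) r, f (e.symm y) = y := fun y hy =>
    e.right_inv (hball hy).1
  refine ⟨r, hr, e.symm, fun y hy => (hCA y hy).contDiffWithinAt, fun y hy => (hball hy).2,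
    hright, ?_, ?_⟩
  · intro y hy v
    have h1 : HasFDerivAt (f ∘ e.symm) ((fderiv ℝ f (e.symm y)).comp (fderiv ℝ e.symm y)) y :=
      ((hs _ (hball hy).2).differentiableAt (by simp)).hasFDerivAt.comp y
        ((hCA y hy).differentiableAt (by simp)).hasFDerivAt
    have h2 : HasFDerivAt (f ∘ e.symm) (ContinuousLinearMap.id ℝ E3) y := by
      apply (hasFDerivAt_id y).congr_of_eventuallyEq
      filter_upwards [Metric.isOpen_ball.mem_nhds hy] with z hz
      exact hright z hz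
    have := h1.unique h2
    exact congrArg (fun L : E3 →L[ℝ] E3 => L v) this
  · filter_upwards [e.open_source.mem_nhds hsrc] with P hP
    exact e.left_inv hP

theorem exists_metric {ι : Type} [Finite ι] (Φ : ι → E3 → E3) {O D : Set E3} (hO : IsOpen O)
    (hDO : D ⊆ O) (hs : ∀ i, ∀ P ∈ O, ContDiffAt ℝ ∞ (Φ i) P)
    (hi : ∀ i, ∀ P ∈ O, Function.Injective (fderiv ℝ (Φ i) P))
    (heul : ∀ i, ∀ P ∈ O, fderiv ℝ (Φ i) P P = Φ i P)
    (hcone : ∀ P ∈ O, 0 < lor P P)
    (hK : ∀ i, IsCompact {P | P ∈ D ∧ ‖Φ i P‖ = 1})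
    (huniq : ∀ i j, ∀ P ∈ O, ∀ P' ∈ O, Φ i P = Φ j P' → ∃ g : E3 →L[ℝ] E3,
      (∀ x y, lor (g x) (g y) = lor x y) ∧ g P = P' ∧ ∀ᶠ X in 𝓝 P, Φ j (g X) = Φ i X) :
    ∃ G : E3 → (E3 →L[ℝ] (E3 →L[ℝ] ℝ)), ContDiff ℝ ∞ G ∧
      (∀ x ∈ Metric.sphere (0 : E3) 1, ∀ v w : E3, G x v w = G x w v) ∧
      (∀ x ∈ Metric.sphere (0 : E3) 1, ∀ v : E3, inner ℝ x v = (0:ℝ) → v ≠ 0 → 0 < G x v v) ∧
      ∀ i, ∀ P ∈ D, ‖Φ i P‖ = 1 → ∀ v w : E3,
        G (Φ i P) (fderiv ℝ (Φ i) P v) (fderiv ℝ (Φ i) P w) = hyp P v w := by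
  let t : E3 → Set (E3 →L[ℝ] (E3 →L[ℝ] ℝ)) := fun x =>
    {B | x ∈ Metric.sphere (0 : E3) 1 → (∀ v w : E3, B v w = B w v) ∧
      (∀ v : E3, inner ℝ x v = (0:ℝ) → v ≠ 0 → 0 < B v v) ∧
      ∀ i, ∀ P ∈ D, Φ i P = x → ∀ v w : E3,
        B (fderiv ℝ (Φ i) P v) (fderiv ℝ (Φ i) P w) = hyp P v w}
  have ht : ∀ x, Convex ℝ (t x) := by
    intro x B hB B' hB' a b ha hb hab hx
    obtain ⟨h1, h2, h3⟩ := hB hx
    obtain ⟨h1', h2', h3'⟩ := hB' hx
    refine ⟨fun v w => ?_, fun v hv hv0 => ?_, fun i P hP hPx v w => ?_⟩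
    · simp [h1 v w, h1' v w]
    · simp only [add_apply, smul_apply, smul_eq_mul]
      have p1 := h2 v hv hv0
      have p2 := h2' v hv hv0
      rcases eq_or_lt_of_le ha with h | h
      · have : b = 1 := by linarith
        rw [← h, this]; linarith
      · nlinarith [mul_pos h p1, mul_nonneg hb p2.le]
    · simp only [add_apply, smul_apply, smul_eq_mul]
      rw [h3 i P hP hPx, h3' i P hP hPx, ← add_mul, hab, one_mul]
  let K : Set E3 := ⋃ i, Φ i '' {P | P ∈ D ∧ ‖Φ i P‖ = 1}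
  have hKc : IsClosed K := by
    apply isClosed_iUnion_of_finite
    intro i
    apply IsCompact.isClosed
    apply (hK i).image_of_continuousOn
    intro P hP
    exact (hs i P (hDO hP.1)).continuousAt.continuousWithinAt
  have Hloc : ∀ x : E3, ∃ U ∈ 𝓝 x, ∃ g : E3 → (E3 →L[ℝ] (E3 →L[ℝ] ℝ)),
      ContMDiffOn 𝓘(ℝ, E3) 𝓘(ℝ, E3 →L[ℝ] (E3 →L[ℝ] ℝ)) ∞ g U ∧ ∀ y ∈ U, g y ∈ t y := by
    intro x
    by_cases hx : x ∈ K
    · obtain ⟨i, P₀, hP₀, rfl⟩ := by simpa [K] using hx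
      obtain ⟨r, hr, F, hF, hFO, hFr, hFd, -⟩ := local_inv hO (hs i) (hi i) (hDO hP₀.1)
      refine ⟨_, Metric.ball_mem_nhds _ hr,
        fun y => (hypL (F y)).bilinearComp (fderiv ℝ F y) (fderiv ℝ F y), ?_, ?_⟩
      · rw [contMDiffOn_iff_contDiffOn, contDiffOn_clm_apply]
        intro v
        rw [contDiffOn_clm_apply]
        intro w
        simp only [ContinuousLinearMap.bilinearComp_apply, hypL_apply, hyp]
        have hdF : ContDiffOn ℝ ∞ (fderiv ℝ F) (Metric.ball (Φ i P₀) r) :=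
          hF.fderiv_of_isOpen Metric.isOpen_ball (by simp)
        have hv := hdF.clm_apply (contDiffOn_const (c := v))
        have hw := hdF.clm_apply (contDiffOn_const (c := w))
        apply ContDiffOn.div
        · exact ((contDiff_lor hF hv).mul (contDiff_lor hF hw)).sub
            ((contDiff_lor hF hF).mul (contDiff_lor hv hw))
        · exact (contDiff_lor hF hF).pow 2
        · intro y hy
          exact pow_ne_zero _ (hcone _ (hFO y hy)).ne'
      · intro y hy hys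
        simp only [ContinuousLinearMap.bilinearComp_apply, hypL_apply]
        refine ⟨fun v w => hyp_comm _ _ _, fun v hv hv0 => ?_, fun j P hP hPy v w => ?_⟩
        · apply hyp_pos (hcone _ (hFO y hy))
          intro a ha
          have h1 := hFd y hy v
          rw [ha, map_smul, heul i _ (hFO y hy), hFr y hy] at h1
          rw [← h1, inner_smul_right, real_inner_self_eq_norm_sq,
            mem_sphere_zero_iff_norm.1 hys] at hv
          have : a = 0 := by simpa using hv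
          rw [this, zero_smul] at h1
          exact hv0 h1.symm
        · obtain ⟨g, hg, hgP, hev⟩ := huniq j i P (hDO hP) (F y) (hFO y hy)
            (by rw [hPy, hFr y hy])
          have hd1 : HasFDerivAt (fun X => Φ i (g X)) ((fderiv ℝ (Φ i) (F y)).comp g) P := by
            have := ((hs i _ (hFO y hy)).differentiableAt (by simp)).hasFDerivAt
            rw [← hgP] at this ⊢
            exact this.comp P g.hasFDerivAt
          have hd2 : fderiv ℝ (Φ j) P = (fderiv ℝ (Φ i) (F y)).comp g :=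
            (hd1.congr_of_eventuallyEq (hev.mono fun X hX => hX.symm)).fderiv
          have hinv : ∀ u, fderiv ℝ F y (fderiv ℝ (Φ i) (F y) u) = u := by
            intro u
            apply hi i _ (hFO y hy)
            rw [hFd y hy]
          rw [hd2]
          simp only [ContinuousLinearMap.comp_apply, hinv]
          rw [← hgP, hyp_isom g hg]
    · refine ⟨Kᶜ, hKc.isOpen_compl.mem_nhds hx, fun _ => innerSL ℝ, contMDiffOn_const, ?_⟩
      intro y hy hys
      refine ⟨fun v w => ?_, fun v _ hv0 => ?_, fun i P hP hPy => ?_⟩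
      · exact real_inner_comm w v
      · exact real_inner_self_pos.2 hv0
      · exfalso
        apply hy
        refine mem_iUnion.2 ⟨i, P, ⟨hP, ?_⟩, hPy⟩
        rw [hPy]; exact mem_sphere_zero_iff_norm.1 hys
  obtain ⟨g, hg⟩ := exists_contMDiffMap_forall_mem_convex_of_local (n := (⊤ : ℕ∞))
    𝓘(ℝ, E3) ht Hloc
  refine ⟨g, contMDiff_iff_contDiff.1 g.contMDiff, fun x hx => (hg x hx).1,
    fun x hx => (hg x hx).2.1, fun i P hP hn => ?_⟩
  exact (hg _ (mem_sphere_zero_iff_norm.2 hn)).2.2 i P hP rfl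

end Pool.Agent.H788Z.Geo
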