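import Pool.Agent.H788Z.Geo.Ray

set_option autoImplicit false

open Filter Topology Set MeasureTheory
open scoped ENNReal NNReal

namespace Pool.Agent.H788Z.Geo

noncomputable def ell (p q : ℝ) (x : E3) : ℝ :=
  (1 - p * q) * (x 0 * x 1 * x 2) - |x 0| * |x 2| * (p * (|x 2| + |x 0|) - q * (|x 2| - |x 0|))

/-- a closed strip between two chords -/
def Strip (a b : ℝ) : Set E3 :=
  {x | 1 / 2 ≤ |x 2| ∧ |x 2| ≤ 10 * |x 0| ∧ 10 * |x 0| ≤ 3 * |x 2| ∧
    0 ≤ ell (ff a) (ff (1 - a)) x ∧ ell (ff b) (ff (1 - b)) x ≤ 0}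

lemma isClosed_Strip (a b : ℝ) : IsClosed (Strip a b) := by
  have hl : ∀ p q, Continuous (ell p q) := fun p q => by unfold ell; fun_prop
  have o : ∀ f g : E3 → ℝ, Continuous f → Continuous g → IsClosed {P | f P ≤ g P} :=
    fun f g hf hg => isClosed_le hf hg
  exact (o _ _ (by fun_prop) (by fun_prop)).inter ((o _ _ (by fun_prop) (by fun_prop)).inter
    ((o _ _ (by fun_prop) (by fun_prop)).inter ((o _ _ continuous_const (hl _ _)).inter
    (o _ _ (hl _ _) continuous_const))))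

lemma ff_mid {a : ℝ} (h : a < 3 / 4) : ff a ≤ 1 / 16 := ff_small (by linarith [om_lt])

lemma strip_disj {a b a' b' : ℝ} (h0 : 1 / 4 < b) (h1 : b < a') (h2 : a' < 3 / 4) :
    Disjoint (Strip a b) (Strip a' b') := by
  rw [Set.disjoint_left]
  rintro x ⟨k1, k2, k3, -, k5⟩ ⟨-, -, -, k4, -⟩
  have pp : ff b < ff a' := ff_strict (by linarith) h1 (by linarith)
  have qq : ff (1 - a') < ff (1 - b) := ff_strict (by linarith) (by linarith) (by linarith)
  have p0 := ff_nonneg b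
  have q0 := ff_nonneg (1 - a')
  have p1 := ff_mid h2
  have q1 := ff_mid (show 1 - b < 3 / 4 by linarith)
  set p := ff b
  set p' := ff a'
  set q := ff (1 - b)
  set q' := ff (1 - a')
  unfold ell at k4 k5
  set w := x 0 * x 1 * x 2
  set u := |x 0|
  set v := |x 2|
  have hu : 0 < u := by linarith
  have hv : 0 < v := by linarith
  have pq : p * q ≤ 1 / 256 := by nlinarith
  have pq' : p' * q' ≤ 1 / 256 := by nlinarith
  have e1 := mul_nonneg (show 0 ≤ 1 - p * q by linarith) k4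
  have e2 := mul_nonneg (show 0 ≤ 1 - p' * q' by linarith) (neg_nonneg.2 k5)
  have e3 : (1 - p * q) * ((1 - p' * q') * w - u * v * (p' * (v + u) - q' * (v - u))) +
      (1 - p' * q') * -((1 - p * q) * w - u * v * (p * (v + u) - q * (v - u))) =
      -(u * v * ((p' - p) * ((v + u) - (v - u) * (q * q')) +
        (q - q') * ((v - u) - (v + u) * (p * p')))) := by ring
  have qq' : q * q' ≤ 1 / 256 := by nlinarith
  have pp' : p * p' ≤ 1 / 256 := by nlinarith
  have f1 : 0 < (v + u) - (v - u) * (q * q') := by nlinarith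
  have f2 : 0 < (v - u) - (v + u) * (p * p') := by nlinarith
  have f3 : 0 < u * v * ((p' - p) * ((v + u) - (v - u) * (q * q')) +
        (q - q') * ((v - u) - (v + u) * (p * p'))) := by
    have := sub_pos.2 pp
    have := sub_pos.2 qq
    positivity
  linarith

lemma ell_sum (p q p' q' a b : ℝ) :
    (1 - p * q) * (a • up p' + b • vp q') 2 -
      (p * ((a • up p' + b • vp q') 0 + (a • up p' + b • vp q') 1) -
        q * ((a • up p' + b • vp q') 0 - (a • up p' + b • vp q') 1)) =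
      a * (2 * (p' - p) * (1 + q * p')) + b * (2 * (q - q') * (1 + p * q')) := by
  simp only [PiLp.add_apply, PiLp.smul_apply, smul_eq_mul, up_0, up_1, up_2, vp_0, vp_1, vp_2]
  ring

lemma visit {a b : ℝ} (h0 : 1 / 4 < a) (hab : a < b) (h1 : b < 3 / 4) {κ : ℝ}
    (hκ : κ ∈ Icc (1 / 10 : ℝ) (3 / 10)) (T : ℝ) :
    ∃ s ≥ T, cc s ∈ Strip a b ∧ |cc s 0| = κ * |cc s 2| := by
  obtain ⟨N, hN⟩ := exists_lt_tau T
  obtain ⟨n', hn', x1, x2⟩ := xs_dense (a := a) (b := b) (by linarith) hab (by linarith) (N + 1)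
  obtain ⟨n, rfl⟩ : ∃ n, n' = n + 1 := ⟨n' - 1, by omega⟩
  have o1 := om_lt
  have tA1 : tA (n + 1) := by unfold tA; linarith
  have tA0 : tA n := by
    by_contra h
    have := xs_B h
    linarith [(xs_mem n).2]
  have hk : Continuous fun s => gn (n + 1) s 1 / gn (n + 1) s 0 := by
    have := continuous_gn (n + 1)
    exact Continuous.div (by fun_prop) (by fun_prop) fun s => (cone_gn _ s).1.ne'
  have e1 : gn (n + 1) (tau n) 1 / gn (n + 1) (tau n) 0 = -(15 / 17) := by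
    have := en_tau n
    rw [en, if_pos tA0] at this
    rw [div_eq_iff (cone_gn _ _).1.ne']; linarith
  have e2 : gn (n + 1) (tau (n + 1)) 1 / gn (n + 1) (tau (n + 1)) 0 = 15 / 17 := by
    have := ex_tau (n + 1)
    rw [ex, if_pos tA1] at this
    rw [div_eq_iff (cone_gn _ _).1.ne']; linarith
  obtain ⟨s, hs, hsk⟩ := intermediate_value_Icc (tau_mono (Nat.lt_succ_self n)).le
    hk.continuousOn (show κ ∈ Icc _ _ by
      rw [e1, e2]; exact ⟨by linarith [hκ.1], by linarith [hκ.2]⟩)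
  have hT : T ≤ s := hN.le.trans ((tau_mono.monotone (by omega)).trans hs.1)
  refine ⟨s, hT, ?_⟩
  rw [cc_eq hs]
  set P := gn (n + 1) s with hP
  have p0 : 0 < P 0 := (cone_gn _ _).1
  replace hsk : P 1 / P 0 = κ := hsk
  have p1 : P 1 = κ * P 0 := by rw [← hsk]; field_simp
  have p2 : |P 2| ≤ P 0 / 8 := by
    have a1 := UU_A tA1
    have a2 := VV_A tA0
    have a3 := (fut_UU (n + 1)).2.2.2
    have a4 := (past_VV (n + 1)).2.2.2
    have a5 := (fut_UU (n + 1)).2.1
    have a6 := (past_VV (n + 1)).2.1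
    have p := Real.exp_pos s
    have p' := Real.exp_pos (-s)
    simp only [hP, gn, geo, PiLp.add_apply, PiLp.smul_apply, smul_eq_mul]
    rw [abs_le]
    constructor <;> nlinarith [mul_pos p a5, mul_pos p' a6]
  have m1 : |P 1 / P 0| ≤ 3 / 5 := by
    rw [hsk, abs_of_nonneg (by linarith [hκ.1])]; linarith [hκ.2]
  have m2 : |P 2 / P 0| ≤ 3 / 5 := by
    rw [abs_div, abs_of_pos p0, div_le_iff₀ p0]; linarith
  have ha := sa_sq (n + 1)
  have hb := sb_sq (n + 1)
  have hz := sz_sq (n + 1)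
  have hr : 0 < ‖Phi (sz (n + 1)) (hn (n + 1) s)‖⁻¹ :=
    inv_pos.2 (norm_pos_iff.2 (Phi_ne hz (cone_hn _ s)))
  have nY := pt_norm hz (cone_hn (n + 1) s)
  have y0 : Y (n + 1) s 0 = ‖Phi (sz (n + 1)) (hn (n + 1) s)‖⁻¹ * (sa (n + 1) * P 1) := by
    rw [Y, pt, PiLp.smul_apply, Phi_0, smul_eq_mul]
    simp only [hn, Ng_0, Ng_1, pA_sgn ha, ← hP, pA_mid m1]
    field_simp
  have y1 : Y (n + 1) s 1 = ‖Phi (sz (n + 1)) (hn (n + 1) s)‖⁻¹ * (sb (n + 1) * P 2) := by
    rw [Y, pt, PiLp.smul_apply, Phi_1, smul_eq_mul]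
    simp only [hn, Ng_0, Ng_2, pA_sgn hb, ← hP, pA_mid m2]
    field_simp
  have y2 : Y (n + 1) s 2 = ‖Phi (sz (n + 1)) (hn (n + 1) s)‖⁻¹ * (sz (n + 1) * P 0) := by
    rw [Y, pt, PiLp.smul_apply, Phi_2, smul_eq_mul]
    simp only [hn, Ng_0, Ng_1, Ng_2, pC_sgn ha, pC_sgn hb, ← hP, pC_mid m1, pC_mid m2]
    ring
  set r := ‖Phi (sz (n + 1)) (hn (n + 1) s)‖⁻¹
  have ea : |sa (n + 1)| = 1 := by rcases sq_one ha with h | h <;> simp [h]
  have ez : |sz (n + 1)| = 1 := by rcases sq_one hz with h | h <;> simp [h]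
  have κ0 : 0 < κ := by linarith [hκ.1]
  have a0 : |Y (n + 1) s 0| = r * (κ * P 0) := by
    rw [y0, abs_mul, abs_mul, ea, one_mul, abs_of_pos hr, p1, abs_of_pos (by positivity)]
  have a2 : |Y (n + 1) s 2| = r * P 0 := by
    rw [y2, abs_mul, abs_mul, ez, one_mul, abs_of_pos hr, abs_of_pos p0]
  have a3 : Y (n + 1) s 0 * Y (n + 1) s 1 * Y (n + 1) s 2 = r ^ 3 * (κ * P 0 * P 2 * P 0) := by
    rw [y0, y1, y2, p1]
    have : sa (n + 1) * sb (n + 1) * sz (n + 1) = 1 := by rw [← hz, sz]; ring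
    linear_combination (r ^ 3 * (κ * P 0 * P 2 * P 0)) * this
  have hell : ∀ p q, ell p q (Y (n + 1) s) = r ^ 3 * (κ * P 0 ^ 2) *
      ((1 - p * q) * P 2 - (p * (P 0 + P 1) - q * (P 0 - P 1))) := by
    intro p q
    rw [ell, a0, a2, a3, p1]; ring
  have rp := mul_pos hr p0
  obtain ⟨α, hα, β, hβ, eP⟩ := gn_form (n + 1) s
  rw [← hP] at eP
  have f1 := ff_nonneg a
  have f2 := ff_nonneg (1 - a)
  have f3 := ff_nonneg b
  have f4 := ff_nonneg (1 - b)
  have f5 := ff_nonneg (xs (n + 1))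
  have f6 := ff_nonneg (1 - xs (n + 1))
  refine ⟨⟨?_, ?_, ?_, ?_, ?_⟩, ?_⟩
  · have e := norm_sq3 (Y (n + 1) s)
    have nY' : ‖Y (n + 1) s‖ = 1 := nY
    rw [nY', ← sq_abs (Y (n + 1) s 0), ← sq_abs (Y (n + 1) s 2), a0, y1] at e
    rw [a2] at e ⊢
    apply le_of_sq_le_sq _ rp.le |>.trans le_rfl
    have b1 : (r * (κ * P 0)) ^ 2 ≤ (r * P 0) ^ 2 := by
      gcongr; nlinarith [hκ.2]
    have b2 : (r * (sb (n + 1) * P 2)) ^ 2 ≤ (r * P 0) ^ 2 := by
      rw [mul_pow, mul_pow, hb, one_mul, mul_pow, ← sq_abs (P 2)]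
      gcongr; linarith
    linarith
  · rw [a0, a2]; nlinarith [hκ.1]
  · rw [a0, a2]; nlinarith [hκ.2]
  · rw [hell]
    apply mul_nonneg (by positivity)
    rw [eP, ell_sum]
    have g1 := sub_nonneg.2 (ff_mono x1.le)
    have g2 := sub_nonneg.2 (ff_mono (show 1 - xs (n + 1) ≤ 1 - a by linarith))
    positivity
  · rw [hell]
    apply mul_nonpos_of_nonneg_of_nonpos (by positivity)
    rw [eP, ell_sum]
    have g1 := sub_nonneg.2 (ff_mono x2.le)
    have g2 := sub_nonneg.2 (ff_mono (show 1 - b ≤ 1 - xs (n + 1) by linarith))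
    have g3 : 0 ≤ α * (2 * (ff b - ff (xs (n + 1))) * (1 + ff (1 - b) * ff (xs (n + 1)))) +
        β * (2 * (ff (1 - xs (n + 1)) - ff (1 - b)) * (1 + ff b * ff (1 - xs (n + 1)))) := by
      positivity
    linarith
  · rw [a0, a2]; ring

lemma lip_ratio (a b : ℝ) :
    LipschitzOnWith 4 (fun x : E3 => |x 0| / |x 2|) (Strip a b) := by
  apply LipschitzOnWith.of_dist_le_mul
  rintro x ⟨k1, -, k3, -, -⟩ y ⟨l1, -, l3, -, -⟩
  have d0 : |(|x 0| - |y 0|)| ≤ dist x y :=
    (abs_abs_sub_abs_le_abs_sub _ _).trans (by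
      have := PiLp.dist_apply_le x y 0
      rwa [Real.dist_eq] at this)
  have d2 : |(|x 2| - |y 2|)| ≤ dist x y :=
    (abs_abs_sub_abs_le_abs_sub _ _).trans (by
      have := PiLp.dist_apply_le x y 2
      rwa [Real.dist_eq] at this)
  have u0 := abs_nonneg (x 0)
  have u0' := abs_nonneg (y 0)
  set u := |x 0|
  set v := |x 2|
  set u' := |y 0|
  set v' := |y 2|
  have hv : 0 < v := by linarith
  have hv' : 0 < v' := by linarith
  have e : u / v - u' / v' = (u - u') / v - (u' / v') * ((v - v') / v) := by field_simp; ring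
  rw [Real.dist_eq, e]
  have b1 : |(u - u') / v| ≤ 2 * dist x y := by
    rw [abs_div, abs_of_pos hv, div_le_iff₀ hv]; nlinarith [dist_nonneg (x := x) (y := y)]
  have b2 : |(v - v') / v| ≤ 2 * dist x y := by
    rw [abs_div, abs_of_pos hv, div_le_iff₀ hv]; nlinarith [dist_nonneg (x := x) (y := y)]
  have b3 : |u' / v'| ≤ 1 := by
    rw [abs_div, abs_of_pos hv', abs_of_nonneg u0', div_le_one hv']; linarith
  have b4 : |(u' / v') * ((v - v') / v)| ≤ 2 * dist x y := by
    rw [abs_mul]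
    calc _ ≤ 1 * (2 * dist x y) := by gcongr
      _ = _ := one_mul _
  calc _ ≤ |(u - u') / v| + |(u' / v') * ((v - v') / v)| := abs_sub _ _
    _ ≤ ((4 : ℝ≥0) : ℝ) * dist x y := by push_cast; linarith

lemma strip_measure {Γ : Set E3} (hΓ : IsClosed Γ) (hne : Γ.Nonempty)
    (hlim : Tendsto (fun s => Metric.infDist (cc s) Γ) atTop (𝓝 0))
    {a b : ℝ} (h0 : 1 / 4 < a) (hab : a < b) (h1 : b < 3 / 4) :
    ENNReal.ofReal (1 / 20) ≤ μH[1] (Γ ∩ Strip a b) := by
  have hsub : Icc (1 / 10 : ℝ) (3 / 10) ⊆ (fun x : E3 => |x 0| / |x 2|) '' (Γ ∩ Strip a b) := by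
    intro κ hκ
    by_contra hc
    let K : Set E3 := Metric.sphere (0 : E3) 1 ∩ (Strip a b ∩ {x | |x 0| = κ * |x 2|})
    have hK : IsCompact K := (isCompact_sphere _ _).inter_right
      ((isClosed_Strip a b).inter (isClosed_eq (by fun_prop) (by fun_prop)))
    obtain ⟨δ, hδ, hδK⟩ := hK.exists_forall_le' (a := (0:ℝ))
      (Metric.continuous_infDist_pt Γ).continuousOn (by
        rintro x ⟨-, hx1, hx2⟩
        apply (hΓ.notMem_iff_infDist_pos hne).1
        intro hxΓ
        apply hc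
        refine ⟨x, ⟨hxΓ, hx1⟩, ?_⟩
        have : 0 < |x 2| := by linarith [hx1.1]
        simp only
        rw [div_eq_iff this.ne']; exact hx2)
    obtain ⟨T, hT⟩ := eventually_atTop.1 (hlim.eventually (gt_mem_nhds hδ))
    obtain ⟨s, hs, h2, h3⟩ := visit h0 hab h1 hκ T
    exact absurd (hδK _ ⟨mem_sphere_zero_iff_norm.2 (cc_norm s), h2, h3⟩) (not_le.2 (hT s hs))
  have h2 := ((lip_ratio a b).mono (inter_subset_right (s := Γ))).hausdorffMeasure_image_le
    zero_le_one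
  have h3 := (measure_mono (μ := μH[1]) hsub).trans h2
  rw [hausdorffMeasure_real, Real.volume_Icc, ENNReal.rpow_one] at h3
  have e : ENNReal.ofReal (3 / 10 - 1 / 10) = ((4 : ℝ≥0) : ℝ≥0∞) * ENNReal.ofReal (1 / 20) := by
    rw [← ENNReal.ofReal_coe_nnreal, ← ENNReal.ofReal_mul (by positivity)]
    congr 1; push_cast; norm_num
  rw [e] at h3
  exact (ENNReal.mul_le_mul_iff_right (by simp) (by simp)).1 h3

theorem not_asymp {Γ : Set E3} (hΓ : IsClosed Γ) (hne : Γ.Nonempty) (hfin : μH[1] Γ ≠ ⊤) :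
    ¬ Tendsto (fun s => Metric.infDist (cc s) Γ) atTop (𝓝 0) := by
  intro hlim
  let α : ℕ → ℝ := fun j => 1 / 4 + 1 / (2 * j + 4)
  let β : ℕ → ℝ := fun j => 1 / 4 + 1 / (2 * j + 3)
  have b1 : ∀ j, 1 / 4 < α j := fun j => by
    have : (0:ℝ) < 1 / (2 * j + 4) := by positivity
    simp only [α]; linarith
  have b2 : ∀ j, α j < β j := fun j => by
    have : (1:ℝ) / (2 * j + 4) < 1 / (2 * j + 3) := by
      apply one_div_lt_one_div_of_lt (by positivity); linarith
    simp only [α, β]; linarith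
  have b3 : ∀ j, β j < 3 / 4 := fun j => by
    have : (1:ℝ) / (2 * j + 3) < 1 / 2 := by
      apply one_div_lt_one_div_of_lt (by positivity)
      have : (0:ℝ) ≤ j := Nat.cast_nonneg j
      linarith
    simp only [β]; linarith
  have b4 : ∀ i j : ℕ, i < j → β j < α i := fun i j hij => by
    have : (1:ℝ) / (2 * j + 3) < 1 / (2 * i + 4) := by
      apply one_div_lt_one_div_of_lt (by positivity)
      have : (i:ℝ) + 1 ≤ j := by exact_mod_cast hij
      linarith
    simp only [α, β]; linarith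
  have hfinite := Measure.finite_const_le_meas_of_disjoint_iUnion (μH[1] : Measure E3)
    (ε := ENNReal.ofReal (1 / 20)) (by simp) (As := fun j => Γ ∩ Strip (α j) (β j))
    (fun j => (hΓ.inter (isClosed_Strip _ _)).measurableSet)
    (by
      intro i j hij
      have key : ∀ i j : ℕ, i < j → Disjoint (Γ ∩ Strip (α j) (β j)) (Γ ∩ Strip (α i) (β i)) :=
        fun i j h => (strip_disj ((b1 j).trans (b2 j)) (b4 i j h) ((b2 i).trans (b3 i))).mono
          inter_subset_right inter_subset_right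
      rcases lt_or_gt_of_ne hij with h | h
      · exact (key i j h).symm
      · exact key j i h)
    (ne_top_of_le_ne_top hfin (measure_mono (iUnion_subset fun j => inter_subset_left)))
  apply Set.infinite_univ (α := ℕ)
  convert hfinite using 1
  ext j
  simpa using strip_measure hΓ hne hlim (b1 j) (b2 j) (b3 j)

end Pool.Agent.H788Z.Geo
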