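import Mathlib

set_option autoImplicit false

open Filter Topology Set
open scoped ContDiff

namespace Pool.Agent.H788Z.Geo

/-- transition from 0 (k ≤ 3/5) to 1 (k ≥ 4/5) -/
noncomputable def tr (k : ℝ) : ℝ := Real.smoothTransition (5 * k - 3)

lemma tr_smooth : ContDiff ℝ ∞ tr := by
  unfold tr
  exact Real.smoothTransition.contDiff.comp (by fun_prop)

lemma tr_zero {k : ℝ} (h : k ≤ 3 / 5) : tr k = 0 :=
  Real.smoothTransition.zero_of_nonpos (by linarith)

lemma tr_one {k : ℝ} (h : 4 / 5 ≤ k) : tr k = 1 :=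
  Real.smoothTransition.one_of_one_le (by linarith)

lemma tr_nonneg (k : ℝ) : 0 ≤ tr k := Real.smoothTransition.nonneg _
lemma tr_le_one (k : ℝ) : tr k ≤ 1 := Real.smoothTransition.le_one _

lemma tr_mono : Monotone tr := fun a b h =>
  Real.smoothTransition.monotone (by linarith)

lemma tr_deriv (k : ℝ) : HasDerivAt tr (deriv tr k) k :=
  (tr_smooth.differentiable (by simp) k).hasDerivAt

lemma tr'_nonneg (k : ℝ) : 0 ≤ deriv tr k := tr_mono.deriv_nonneg

lemma tr'_zero {k : ℝ} (h : k < 3 / 5) : deriv tr k = 0 := by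
  have : tr =ᶠ[𝓝 k] fun _ => 0 := by
    filter_upwards [Iio_mem_nhds h] with x hx using tr_zero (le_of_lt hx)
  rw [this.deriv_eq]; simp

noncomputable def pA (k : ℝ) : ℝ :=
  k + tr k * ((17 - 15 * k) / 2 - k) - tr (-k) * ((17 + 15 * k) / 2 + k)

noncomputable def pC (k : ℝ) : ℝ :=
  1 + tr k * ((15 - 17 * k) / 2 - 1) + tr (-k) * ((15 + 17 * k) / 2 - 1)

noncomputable def dA (k : ℝ) : ℝ :=
  1 + (deriv tr k * ((17 - 15 * k) / 2 - k) - tr k * (17 / 2)) +
    (deriv tr (-k) * ((17 + 15 * k) / 2 + k) - tr (-k) * (17 / 2))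

noncomputable def dC (k : ℝ) : ℝ :=
  (deriv tr k * ((15 - 17 * k) / 2 - 1) - tr k * (17 / 2)) -
    (deriv tr (-k) * ((15 + 17 * k) / 2 - 1) - tr (-k) * (17 / 2))

lemma pA_smooth : ContDiff ℝ ∞ pA := by
  have := tr_smooth
  unfold pA; fun_prop

lemma pC_smooth : ContDiff ℝ ∞ pC := by
  have := tr_smooth
  unfold pC; fun_prop

lemma tr_neg_deriv (k : ℝ) : HasDerivAt (fun k => tr (-k)) (-deriv tr (-k)) k := by
  refine ((tr_deriv (-k)).comp k (hasDerivAt_neg k)).congr_deriv ?_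
  ring

lemma pA_deriv (k : ℝ) : HasDerivAt pA (dA k) k := by
  have h1 : HasDerivAt (fun k : ℝ => (17 - 15 * k) / 2 - k) (-17 / 2) k := by
    refine ((((hasDerivAt_id' k).const_mul 15).const_sub 17).div_const 2 |>.sub
      (hasDerivAt_id' k)).congr_deriv ?_
    ring
  have h2 : HasDerivAt (fun k : ℝ => (17 + 15 * k) / 2 + k) (17 / 2) k := by
    refine ((((hasDerivAt_id' k).const_mul 15).const_add 17).div_const 2 |>.add
      (hasDerivAt_id' k)).congr_deriv ?_
    ring
  refine (((hasDerivAt_id' k).add ((tr_deriv k).mul h1)).sub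
    ((tr_neg_deriv k).mul h2)).congr_deriv ?_
  unfold dA; ring

lemma pC_deriv (k : ℝ) : HasDerivAt pC (dC k) k := by
  have h1 : HasDerivAt (fun k : ℝ => (15 - 17 * k) / 2 - 1) (-17 / 2) k := by
    refine ((((hasDerivAt_id' k).const_mul 17).const_sub 15).div_const 2 |>.sub_const
      1).congr_deriv ?_
    ring
  have h2 : HasDerivAt (fun k : ℝ => (15 + 17 * k) / 2 - 1) (17 / 2) k := by
    refine ((((hasDerivAt_id' k).const_mul 17).const_add 15).div_const 2 |>.sub_const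
      1).congr_deriv ?_
    ring
  refine ((((tr_deriv k).mul h1).const_add 1).add
    ((tr_neg_deriv k).mul h2)).congr_deriv ?_
  unfold dC; ring

lemma pA_neg (k : ℝ) : pA (-k) = -pA k := by unfold pA; rw [neg_neg]; ring
lemma pC_neg (k : ℝ) : pC (-k) = pC k := by unfold pC; rw [neg_neg]; ring
lemma dA_neg (k : ℝ) : dA (-k) = dA k := by unfold dA; rw [neg_neg]; ring
lemma dC_neg (k : ℝ) : dC (-k) = -dC k := by unfold dC; rw [neg_neg]; ring

lemma pA_mid {k : ℝ} (h : |k| ≤ 3 / 5) : pA k = k := by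
  have := abs_le.1 h
  unfold pA; rw [tr_zero this.2, tr_zero (by linarith)]; ring

lemma pC_mid {k : ℝ} (h : |k| ≤ 3 / 5) : pC k = 1 := by
  have := abs_le.1 h
  unfold pC; rw [tr_zero this.2, tr_zero (by linarith)]; ring

lemma dA_mid {k : ℝ} (h : |k| < 3 / 5) : dA k = 1 := by
  have := abs_lt.1 h
  unfold dA
  rw [tr_zero this.2.le, tr_zero (by linarith), tr'_zero this.2, tr'_zero (by linarith)]; ring

lemma dC_mid {k : ℝ} (h : |k| < 3 / 5) : dC k = 0 := by
  have := abs_lt.1 h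
  unfold dC
  rw [tr_zero this.2.le, tr_zero (by linarith), tr'_zero this.2, tr'_zero (by linarith)]; ring

lemma pA_far {k : ℝ} (h : 4 / 5 ≤ k) : pA k = (17 - 15 * k) / 2 := by
  unfold pA; rw [tr_one h, tr_zero (by linarith)]; ring

lemma pC_far {k : ℝ} (h : 4 / 5 ≤ k) : pC k = (15 - 17 * k) / 2 := by
  unfold pC; rw [tr_one h, tr_zero (by linarith)]; ring

lemma pA_pos' {k : ℝ} (h : 0 ≤ k) : pA k = k + tr k * ((17 - 15 * k) / 2 - k) := by
  unfold pA; rw [tr_zero (k := -k) (by linarith)]; ring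

lemma pC_pos' {k : ℝ} (h : 0 ≤ k) : pC k = 1 + tr k * ((15 - 17 * k) / 2 - 1) := by
  unfold pC; rw [tr_zero (k := -k) (by linarith)]; ring

lemma wr_neg' {k : ℝ} (h : 0 ≤ k) : dC k * pA k - pC k * dA k < 0 := by
  rw [pA_pos' h, pC_pos' h]
  unfold dA dC
  rw [tr_zero (k := -k) (by linarith), tr'_zero (k := -k) (by linarith)]
  have h1 := tr'_nonneg k
  set a := tr k
  set b := deriv tr k
  have : (b * ((15 - 17 * k) / 2 - 1) - a * (17 / 2) - (0 * ((15 + 17 * k) / 2 - 1) - 0 * (17 / 2))) *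
      (k + a * ((17 - 15 * k) / 2 - k)) - (1 + a * ((15 - 17 * k) / 2 - 1)) *
      (1 + (b * ((17 - 15 * k) / 2 - k) - a * (17 / 2)) +
        (0 * ((17 + 15 * k) / 2 + k) - 0 * (17 / 2))) =
      -((1 - a) ^ 2 + 16 * a ^ 2 + b * ((17 * (1 + k ^ 2) - 30 * k) / 2)) := by ring
  rw [this]
  have h2 : 0 ≤ (17 * (1 + k ^ 2) - 30 * k) / 2 := by nlinarith [sq_nonneg (k - 1)]
  have h3 := mul_nonneg h1 h2
  nlinarith [sq_nonneg (17 * a - 1)]

lemma wr_neg (k : ℝ) : dC k * pA k - pC k * dA k < 0 := by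
  rcases le_total 0 k with h | h
  · exact wr_neg' h
  · have := wr_neg' (k := -k) (by linarith)
    rw [pA_neg, pC_neg, dA_neg, dC_neg] at this
    linarith

lemma le_pA {k : ℝ} (h0 : 0 ≤ k) (h1 : k ≤ 1) : k ≤ pA k := by
  rw [pA_pos' h0]
  have := mul_nonneg (tr_nonneg k) (show 0 ≤ (17 - 15 * k) / 2 - k by linarith)
  linarith

lemma abs_le_pA {k : ℝ} (h : |k| ≤ 1) : |k| ≤ |pA k| := by
  rcases le_total 0 k with h0 | h0
  · rw [abs_of_nonneg h0] at h ⊢
    exact (le_pA h0 h).trans (le_abs_self _)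
  · rw [abs_of_nonpos h0] at h ⊢
    have := le_pA (k := -k) (by linarith) h
    rw [pA_neg] at this
    exact this.trans (neg_le_abs _)

lemma abs_pA_le {k : ℝ} (h : |k| ≤ 1) : |pA k| ≤ 9 := by
  have key : ∀ k : ℝ, 0 ≤ k → k ≤ 1 → |pA k| ≤ 9 := by
    intro k h0 h1
    rw [abs_of_nonneg (h0.trans (le_pA h0 h1)), pA_pos' h0]
    have := mul_le_mul_of_nonneg_right (tr_le_one k) (show 0 ≤ (17 - 15 * k) / 2 - k by linarith)
    linarith
  rcases le_total 0 k with h0 | h0
  · rw [abs_of_nonneg h0] at h; exact key k h0 h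
  · rw [abs_of_nonpos h0] at h
    have := key (-k) (by linarith) h
    rwa [pA_neg, abs_neg] at this

lemma abs_pC_le {k : ℝ} (h : |k| ≤ 1) : |pC k| ≤ 9 := by
  have key : ∀ k : ℝ, 0 ≤ k → k ≤ 1 → |pC k| ≤ 9 := by
    intro k h0 h1
    rw [pC_pos' h0, abs_le]
    have a := tr_nonneg k
    have b := tr_le_one k
    constructor <;> nlinarith
  rcases le_total 0 k with h0 | h0
  · rw [abs_of_nonneg h0] at h; exact key k h0 h
  · rw [abs_of_nonpos h0] at h
    have := key (-k) (by linarith) h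
    rwa [pC_neg] at this

lemma pC_nonneg {k : ℝ} (h : |k| ≤ 15 / 17) : 0 ≤ pC k := by
  have key : ∀ k : ℝ, 0 ≤ k → k ≤ 15 / 17 → 0 ≤ pC k := by
    intro k h0 h1
    rw [pC_pos' h0]
    have a := tr_nonneg k
    have b := tr_le_one k
    nlinarith
  rcases le_total 0 k with h0 | h0
  · rw [abs_of_nonneg h0] at h; exact key k h0 h
  · rw [abs_of_nonpos h0] at h
    have := key (-k) (by linarith) h
    rwa [pC_neg] at this

lemma pC_pos {k : ℝ} (h : |k| < 15 / 17) : 0 < pC k := by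
  have key : ∀ k : ℝ, 0 ≤ k → k < 15 / 17 → 0 < pC k := by
    intro k h0 h1
    rw [pC_pos' h0]
    have a := tr_nonneg k
    have b := tr_le_one k
    rcases eq_or_lt_of_le b with e | e
    · rw [e]; linarith
    · nlinarith
  rcases le_total 0 k with h0 | h0
  · rw [abs_of_nonneg h0] at h; exact key k h0 h
  · rw [abs_of_nonpos h0] at h
    have := key (-k) (by linarith) h
    rwa [pC_neg] at this

lemma ratio_anti : StrictAntiOn (fun k => pC k / pA k) (Ioo 0 1) := by
  have hpos : ∀ k ∈ Ioo (0:ℝ) 1, 0 < pA k := fun k hk => hk.1.trans_le (le_pA hk.1.le hk.2.le)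
  have hd : ∀ k ∈ Ioo (0:ℝ) 1, HasDerivAt (fun k => pC k / pA k)
      ((dC k * pA k - pC k * dA k) / pA k ^ 2) k := fun k hk =>
    (pC_deriv k).div (pA_deriv k) (hpos k hk).ne'
  apply strictAntiOn_of_deriv_neg (convex_Ioo _ _)
  · exact fun k hk => (hd k hk).continuousAt.continuousWithinAt
  · intro k hk
    rw [interior_Ioo] at hk
    rw [(hd k hk).deriv]
    exact div_neg_of_neg_of_pos (wr_neg k) (pow_pos (hpos k hk) 2)

lemma dir_inj {k k' a a' : ℝ} (hk : |k| < 1) (hk' : |k'| < 1) (ha : 0 < a) (ha' : 0 < a')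
    (h1 : a * pA k = a' * pA k') (h2 : a * pC k = a' * pC k') : k = k' ∧ a = a' := by
  have key : ∀ k k' : ℝ, k ∈ Ioo (0:ℝ) 1 → k' ∈ Ioo (0:ℝ) 1 → a * pA k = a' * pA k' →
      a * pC k = a' * pC k' → k = k' := by
    intro k k' hk hk' h1 h2
    have p1 : 0 < pA k := hk.1.trans_le (le_pA hk.1.le hk.2.le)
    have p2 : 0 < pA k' := hk'.1.trans_le (le_pA hk'.1.le hk'.2.le)
    apply ratio_anti.injOn hk hk'
    simp only
    rw [div_eq_div_iff p1.ne' p2.ne']
    have : a * a' * (pC k * pA k') = a * a' * (pC k' * pA k) := by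
      calc a * a' * (pC k * pA k') = (a * pC k) * (a' * pA k') := by ring
        _ = (a' * pC k') * (a * pA k) := by rw [h2, h1]
        _ = _ := by ring
    exact mul_left_cancel₀ (by positivity) this
  have sgn : ∀ k : ℝ, |k| < 1 → (0 < k → 0 < pA k) ∧ (k < 0 → pA k < 0) ∧ (k = 0 → pA k = 0) := by
    intro k hk
    have := abs_lt.1 hk
    refine ⟨fun h => h.trans_le (le_pA h.le this.2.le), fun h => ?_, fun h => ?_⟩
    · have := le_pA (k := -k) (by linarith) (by linarith)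
      rw [pA_neg] at this; linarith
    · rw [h, pA_mid (by norm_num)]
  have s1 := sgn k hk
  have s2 := sgn k' hk'
  have hkk : k = k' := by
    have b1 := abs_lt.1 hk
    have b2 := abs_lt.1 hk'
    rcases lt_trichotomy k 0 with h | h | h <;> rcases lt_trichotomy k' 0 with h' | h' | h'
    · have := key (-k) (-k') ⟨by linarith, by linarith⟩ ⟨by linarith, by linarith⟩
        (by rw [pA_neg, pA_neg]; linarith) (by rw [pC_neg, pC_neg]; linarith)
      linarith
    · have := mul_neg_of_pos_of_neg ha (s1.2.1 h); rw [h1, s2.2.2 h'] at this; linarith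
    · have := mul_neg_of_pos_of_neg ha (s1.2.1 h); have := mul_pos ha' (s2.1 h'); linarith
    · have := mul_neg_of_pos_of_neg ha' (s2.2.1 h'); rw [← h1, s1.2.2 h] at this; linarith
    · rw [h, h']
    · have := mul_pos ha' (s2.1 h'); rw [← h1, s1.2.2 h] at this; linarith
    · have := mul_neg_of_pos_of_neg ha' (s2.2.1 h'); have := mul_pos ha (s1.1 h); linarith
    · have := mul_pos ha (s1.1 h); rw [h1, s2.2.2 h'] at this; linarith
    · exact key k k' ⟨h, b1.2⟩ ⟨h', b2.2⟩ h1 h2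
  subst hkk
  refine ⟨rfl, ?_⟩
  by_contra hne
  have e1 : pA k = 0 := by
    have : (a - a') * pA k = 0 := by linarith
    exact (mul_eq_zero.1 this).resolve_left (sub_ne_zero.2 hne)
  have e2 : pC k = 0 := by
    have : (a - a') * pC k = 0 := by linarith
    exact (mul_eq_zero.1 this).resolve_left (sub_ne_zero.2 hne)
  have := wr_neg k
  rw [e1, e2] at this; simp at this

end Pool.Agent.H788Z.Geo
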