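import Pool.Agent.H788Z.Geo.Alg
import Pool.Agent.H788Z.Geo.Prof

set_option autoImplicit false

open Filter Topology Set
open scoped ContDiff

namespace Pool.Agent.H788Z.Geo

/-- The chart from the positive cone to three-space. -/
noncomputable def Phi (z : ℝ) (P : E3) : E3 :=
  !₂[P 0 * pA (P 1 / P 0), P 0 * pA (P 2 / P 0), z * (P 0 * (pC (P 1 / P 0) * pC (P 2 / P 0)))]

@[simp] lemma Phi_0 (z : ℝ) (P : E3) : Phi z P 0 = P 0 * pA (P 1 / P 0) := rfl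
@[simp] lemma Phi_1 (z : ℝ) (P : E3) : Phi z P 1 = P 0 * pA (P 2 / P 0) := rfl
@[simp] lemma Phi_2 (z : ℝ) (P : E3) :
    Phi z P 2 = z * (P 0 * (pC (P 1 / P 0) * pC (P 2 / P 0))) := rfl

lemma Phi_smooth (z : ℝ) {P : E3} (h : P 0 ≠ 0) : ContDiffAt ℝ ∞ (Phi z) P := by
  rw [contDiffAt_euclidean]
  have hA := pA_smooth
  have hC := pC_smooth
  have c : ∀ i, ContDiffAt ℝ ∞ (fun X : E3 => X i) P := fun i => by fun_prop
  have k : ∀ i, ContDiffAt ℝ ∞ (fun X : E3 => X i / X 0) P := fun i => (c i).div (c 0) h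
  intro i
  fin_cases i
  · exact (c 0).mul (hA.contDiffAt.comp P (k 1))
  · exact (c 0).mul (hA.contDiffAt.comp P (k 2))
  · exact contDiffAt_const.mul ((c 0).mul ((hC.contDiffAt.comp P (k 1)).mul
      (hC.contDiffAt.comp P (k 2))))

lemma Phi_smul (z : ℝ) (P : E3) {r : ℝ} (hr : r ≠ 0) : Phi z (r • P) = r • Phi z P := by
  have e : ∀ i, (r • P) i / (r • P) 0 = P i / P 0 := fun i => by
    simp [mul_div_mul_left _ _ hr]
  apply ext3
  · rw [Phi_0, e]; simp; ring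
  · rw [Phi_1, e]; simp; ring
  · rw [Phi_2, e, e]; simp; ring

lemma Phi_euler (z : ℝ) {P : E3} (h : P 0 ≠ 0) : fderiv ℝ (Phi z) P P = Phi z P := by
  have hd := ((Phi_smooth z h).differentiableAt (by simp)).hasFDerivAt
  have h1 : HasDerivAt (fun r : ℝ => r • P) P 1 := by
    refine ((hasDerivAt_id' (1:ℝ)).smul_const P).congr_deriv ?_
    simp
  have h2 : HasDerivAt (fun r : ℝ => Phi z (r • P)) (fderiv ℝ (Phi z) P P) 1 := by
    have hd' : HasFDerivAt (Phi z) (fderiv ℝ (Phi z) P) ((1:ℝ) • P) := by rwa [one_smul]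
    exact hd'.comp_hasDerivAt (1:ℝ) h1
  have h3 : HasDerivAt (fun r : ℝ => Phi z (r • P)) (Phi z P) 1 := by
    have : HasDerivAt (fun r : ℝ => r • Phi z P) (Phi z P) 1 := by
      refine ((hasDerivAt_id' (1:ℝ)).smul_const (Phi z P)).congr_deriv ?_
      simp
    apply this.congr_of_eventuallyEq
    filter_upwards [Ioi_mem_nhds (show (0:ℝ) < 1 by norm_num)] with r hr
    exact Phi_smul z P (ne_of_gt hr)
  exact h2.unique h3

/-- positive cone -/
def Cone (P : E3) : Prop := 0 < P 0 ∧ 0 < lor P P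

lemma Cone.k1 {P : E3} (h : Cone P) : |P 1 / P 0| < 1 := by
  have h2 := h.2
  unfold lor at h2
  rw [abs_div, abs_of_pos h.1, div_lt_one h.1]
  apply abs_lt_of_sq_lt_sq _ h.1.le
  nlinarith [sq_nonneg (P 2)]

lemma Cone.k2 {P : E3} (h : Cone P) : |P 2 / P 0| < 1 := by
  have h2 := h.2
  unfold lor at h2
  rw [abs_div, abs_of_pos h.1, div_lt_one h.1]
  apply abs_lt_of_sq_lt_sq _ h.1.le
  nlinarith [sq_nonneg (P 1)]

lemma isOpen_cone : IsOpen {P : E3 | Cone P} := by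
  have h1 : IsOpen {P : E3 | 0 < P 0} := isOpen_lt continuous_const (by fun_prop)
  have h2 : IsOpen {P : E3 | 0 < lor P P} :=
    isOpen_lt continuous_const (continuous_lor continuous_id continuous_id)
  exact h1.inter h2

/-- cross shaped region -/
def Cross (P : E3) : Prop := |P 1 / P 0| < 3 / 5 ∨ |P 2 / P 0| < 3 / 5

lemma Phi_inj_deriv {z : ℝ} (hz : z ≠ 0) {P : E3} (h : Cone P) (hc : Cross P) :
    Function.Injective (fderiv ℝ (Phi z) P) := by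
  rw [injective_iff_map_eq_zero]
  intro v hv
  have h0 := h.1
  have hd := ((Phi_smooth z h0.ne').differentiableAt (by simp)).hasFDerivAt
  have h1 : HasDerivAt (fun r : ℝ => P + r • v) v 0 := by
    refine (((hasDerivAt_id' (0:ℝ)).smul_const v).const_add P).congr_deriv ?_
    simp
  have h2 : HasDerivAt (fun r : ℝ => Phi z (P + r • v)) 0 0 := by
    have hd' : HasFDerivAt (Phi z) (fderiv ℝ (Phi z) P) (P + (0:ℝ) • v) := by
      rwa [zero_smul, add_zero]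
    have := hd'.comp_hasDerivAt (0:ℝ) h1
    rwa [hv] at this
  have h3 : ∀ i, HasDerivAt (fun r : ℝ => Phi z (P + r • v) i) 0 0 := fun i => by
    have := (EuclideanSpace.proj i : E3 →L[ℝ] ℝ).hasFDerivAt.comp_hasDerivAt (0:ℝ) h2
    rw [map_zero] at this
    exact this
  have c : ∀ i, HasDerivAt (fun r : ℝ => (P + r • v) i) (v i) 0 := fun i =>
    (EuclideanSpace.proj i : E3 →L[ℝ] ℝ).hasFDerivAt.comp_hasDerivAt (0:ℝ) h1
  have e : ∀ i, (P + (0:ℝ) • v) i = P i := fun i => by simp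
  have k : ∀ i, HasDerivAt (fun r : ℝ => (P + r • v) i / (P + r • v) 0)
      ((v i * P 0 - P i * v 0) / P 0 ^ 2) 0 := fun i => by
    have := (c i).div (c 0) (by rw [e]; exact h0.ne')
    rwa [e, e] at this
  have kA : ∀ i, HasDerivAt (fun r : ℝ => pA ((P + r • v) i / (P + r • v) 0))
      (dA (P i / P 0) * ((v i * P 0 - P i * v 0) / P 0 ^ 2)) 0 := fun i => by
    have := (pA_deriv ((P + (0:ℝ) • v) i / (P + (0:ℝ) • v) 0)).comp (0:ℝ) (k i)
    rwa [e, e] at this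
  have kC : ∀ i, HasDerivAt (fun r : ℝ => pC ((P + r • v) i / (P + r • v) 0))
      (dC (P i / P 0) * ((v i * P 0 - P i * v 0) / P 0 ^ 2)) 0 := fun i => by
    have := (pC_deriv ((P + (0:ℝ) • v) i / (P + (0:ℝ) • v) 0)).comp (0:ℝ) (k i)
    rwa [e, e] at this
  have E0 := ((c 0).mul (kA 1)).unique (h3 0)
  have E1 := ((c 0).mul (kA 2)).unique (h3 1)
  have E2 := (((c 0).mul ((kC 1).mul (kC 2))).const_mul z).unique (h3 2)
  simp only [e, Pi.mul_apply] at E0 E1 E2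
  have E2' := (mul_eq_zero.1 E2).resolve_left hz
  set x1 := (v 1 * P 0 - P 1 * v 0) / P 0 ^ 2 with hx1
  set x2 := (v 2 * P 0 - P 2 * v 0) / P 0 ^ 2 with hx2
  have solve : ∀ k x : ℝ, v 0 * pA k + P 0 * (dA k * x) = 0 → v 0 * pC k + P 0 * (dC k * x) = 0 →
      v 0 = 0 ∧ x = 0 := by
    intro k x a b
    have w := (wr_neg k).ne
    constructor
    · have : v 0 * (dC k * pA k - pC k * dA k) = 0 := by linear_combination dC k * a - dA k * b
      exact (mul_eq_zero.1 this).resolve_right w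
    · have : (P 0 * x) * (dC k * pA k - pC k * dA k) = 0 := by
        linear_combination pA k * b - pC k * a
      exact (mul_eq_zero.1 ((mul_eq_zero.1 this).resolve_right w)).resolve_left h0.ne'
  have fin : v 0 = 0 ∧ x1 = 0 ∧ x2 = 0 := by
    rcases hc with hc | hc
    · rw [pA_mid hc.le, dA_mid hc] at E0
      rw [pC_mid hc.le, dC_mid hc] at E2'
      obtain ⟨a, b⟩ := solve _ x2 E1 (by linarith)
      refine ⟨a, ?_, b⟩
      rw [a] at E0
      have : P 0 * x1 = 0 := by linarith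
      exact (mul_eq_zero.1 this).resolve_left h0.ne'
    · rw [pA_mid hc.le, dA_mid hc] at E1
      rw [pC_mid hc.le, dC_mid hc] at E2'
      obtain ⟨a, b⟩ := solve _ x1 E0 (by linarith)
      refine ⟨a, b, ?_⟩
      rw [a] at E1
      have : P 0 * x2 = 0 := by linarith
      exact (mul_eq_zero.1 this).resolve_left h0.ne'
  obtain ⟨a, b, c'⟩ := fin
  rw [hx1, a, div_eq_zero_iff] at b
  rw [hx2, a, div_eq_zero_iff] at c'
  have hp : P 0 ^ 2 ≠ 0 := pow_ne_zero _ h0.ne'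
  have b' := b.resolve_right hp
  have c'' := c'.resolve_right hp
  apply ext3
  · simpa using a
  · simpa [h0.ne'] using b'
  · simpa [h0.ne'] using c''

lemma Phi_inj {z : ℝ} (hz : z ≠ 0) {P P' : E3} (h : Cone P) (hc : Cross P) (h' : Cone P')
    (hc' : Cross P') (e : Phi z P = Phi z P') : P = P' := by
  have e0 : P 0 * pA (P 1 / P 0) = P' 0 * pA (P' 1 / P' 0) := congrArg (fun x : E3 => x 0) e
  have e1 : P 0 * pA (P 2 / P 0) = P' 0 * pA (P' 2 / P' 0) := congrArg (fun x : E3 => x 1) e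
  have e2 : P 0 * (pC (P 1 / P 0) * pC (P 2 / P 0)) =
      P' 0 * (pC (P' 1 / P' 0) * pC (P' 2 / P' 0)) :=
    mul_left_cancel₀ hz (congrArg (fun x : E3 => x 2) e)
  have gen : ∀ a a' x y x' y' : ℝ, 0 < a → 0 < a' → |x| < 1 → |x'| < 1 → |y| < 3 / 5 →
      |y'| < 3 / 5 → a * pA x = a' * pA x' → a * pA y = a' * pA y' →
      a * (pC x * pC y) = a' * (pC x' * pC y') → a = a' ∧ x = x' ∧ y = y' := by
    intro a a' x y x' y' ha ha' hx hx' hy hy' q0 q1 q2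
    rw [pC_mid hy.le, pC_mid hy'.le, mul_one, mul_one] at q2
    rw [pA_mid hy.le, pA_mid hy'.le] at q1
    obtain ⟨r1, r2⟩ := dir_inj hx hx' ha ha' q0 q2
    subst r2
    exact ⟨rfl, r1, mul_left_cancel₀ ha.ne' q1⟩
  have mix : ∀ a a' x y x' y' : ℝ, 0 < a → 0 < a' → |x| < 1 → |y'| < 1 → |y| < 3 / 5 →
      |x'| < 3 / 5 → ¬ |x| < 3 / 5 → ¬ |y'| < 3 / 5 → a * pA x = a' * pA x' →
      a * pA y = a' * pA y' → False := by
    intro a a' x y x' y' ha ha' hx hy' hy hx' nx ny' q0 q1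
    rw [pA_mid hx'.le] at q0
    rw [pA_mid hy.le] at q1
    have b0 := congrArg abs q0
    have b1 := congrArg abs q1
    rw [abs_mul, abs_mul, abs_of_pos ha, abs_of_pos ha'] at b0 b1
    have c0 := abs_le_pA hx.le
    have c1 := abs_le_pA hy'.le
    push Not at nx ny'
    nlinarith
  have fin : P 0 = P' 0 ∧ P 1 / P 0 = P' 1 / P' 0 ∧ P 2 / P 0 = P' 2 / P' 0 := by
    by_cases a2 : |P 2 / P 0| < 3 / 5 <;> by_cases a2' : |P' 2 / P' 0| < 3 / 5
    · exact gen _ _ _ _ _ _ h.1 h'.1 h.k1 h'.k1 a2 a2' e0 e1 e2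
    · have a1' := hc'.resolve_right a2'
      by_cases a1 : |P 1 / P 0| < 3 / 5
      · obtain ⟨r0, r1, r2⟩ := gen _ _ _ _ _ _ h.1 h'.1 h.k2 h'.k2 a1 a1' e1 e0 (by linarith)
        exact ⟨r0, r2, r1⟩
      · exact (mix _ _ _ _ _ _ h.1 h'.1 h.k1 h'.k2 a2 a1' a1 a2' e0 e1).elim
    · have a1 := hc.resolve_right a2
      by_cases a1' : |P' 1 / P' 0| < 3 / 5
      · obtain ⟨r0, r1, r2⟩ := gen _ _ _ _ _ _ h.1 h'.1 h.k2 h'.k2 a1 a1' e1 e0 (by linarith)
        exact ⟨r0, r2, r1⟩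
      · exact (mix _ _ _ _ _ _ h'.1 h.1 h'.k1 h.k2 a2' a1 a1' a2 e0.symm e1.symm).elim
    · obtain ⟨r0, r1, r2⟩ := gen _ _ _ _ _ _ h.1 h'.1 h.k2 h'.k2 (hc.resolve_right a2)
        (hc'.resolve_right a2') e1 e0 (by linarith)
      exact ⟨r0, r2, r1⟩
  obtain ⟨r0, r1, r2⟩ := fin
  rw [← r0] at r1 r2
  exact ext3 r0 ((div_left_inj' h.1.ne').1 r1) ((div_left_inj' h.1.ne').1 r2)

lemma Phi_norm_bounds {z : ℝ} (hz : z ^ 2 = 1) {P : E3} (h : Cone P) :
    3 / 5 * P 0 ≤ ‖Phi z P‖ ∧ ‖Phi z P‖ ≤ 100 * P 0 := by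
  have h0 := h.1
  have e : ‖Phi z P‖ ^ 2 = P 0 ^ 2 * (pA (P 1 / P 0) ^ 2 + pA (P 2 / P 0) ^ 2 +
      (pC (P 1 / P 0) * pC (P 2 / P 0)) ^ 2) := by
    rw [norm_sq3, Phi_0, Phi_1, Phi_2]
    linear_combination (P 0 * (pC (P 1 / P 0) * pC (P 2 / P 0))) ^ 2 * hz
  set x := P 1 / P 0
  set y := P 2 / P 0
  have hx := h.k1
  have hy := h.k2
  constructor
  · apply le_of_sq_le_sq _ (norm_nonneg _) |>.trans le_rfl
    rw [e, mul_pow, mul_comm]
    gcongr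
    by_cases a1 : |x| ≤ 3 / 5
    · by_cases a2 : |y| ≤ 3 / 5
      · rw [pC_mid a1, pC_mid a2]; nlinarith [sq_nonneg (pA x), sq_nonneg (pA y)]
      · have := abs_le_pA hy.le
        have b : (3 / 5 : ℝ) ^ 2 ≤ |pA y| ^ 2 := by gcongr; linarith
        rw [sq_abs] at b
        nlinarith [sq_nonneg (pA x), sq_nonneg (pC x * pC y)]
    · have := abs_le_pA hx.le
      have b : (3 / 5 : ℝ) ^ 2 ≤ |pA x| ^ 2 := by gcongr; linarith
      rw [sq_abs] at b
      nlinarith [sq_nonneg (pA y), sq_nonneg (pC x * pC y)]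
  · apply le_of_sq_le_sq _ (by positivity) |>.trans le_rfl
    rw [e, mul_pow (100:ℝ), mul_comm]
    gcongr
    have b1 : |pA x| ^ 2 ≤ 9 ^ 2 := by gcongr; exact abs_pA_le hx.le
    have b2 : |pA y| ^ 2 ≤ 9 ^ 2 := by gcongr; exact abs_pA_le hy.le
    have b3 : |pC x * pC y| ^ 2 ≤ (9 * 9) ^ 2 := by
      rw [abs_mul]; gcongr
      · exact abs_pC_le hx.le
      · exact abs_pC_le hy.le
    rw [sq_abs] at b1 b2 b3
    linarith

/-- sign changes -/
noncomputable def Ng (a b : ℝ) : E3 →L[ℝ] E3 := lin !![1, 0, 0; 0, a, 0; 0, 0, b]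
/-- swap -/
noncomputable def Sw : E3 →L[ℝ] E3 := lin !![1, 0, 0; 0, 0, 1; 0, 1, 0]
/-- reflection in the seam -/
noncomputable def Rf : E3 →L[ℝ] E3 :=
  lin !![257 / 32, -255 / 32, 0; 255 / 32, -257 / 32, 0; 0, 0, 1]

@[simp] lemma Ng_0 (a b : ℝ) (P : E3) : Ng a b P 0 = P 0 := by simp [Ng, lin_apply]
@[simp] lemma Ng_1 (a b : ℝ) (P : E3) : Ng a b P 1 = a * P 1 := by simp [Ng, lin_apply]
@[simp] lemma Ng_2 (a b : ℝ) (P : E3) : Ng a b P 2 = b * P 2 := by simp [Ng, lin_apply]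
@[simp] lemma Sw_0 (P : E3) : Sw P 0 = P 0 := by simp [Sw, lin_apply]
@[simp] lemma Sw_1 (P : E3) : Sw P 1 = P 2 := by simp [Sw, lin_apply]
@[simp] lemma Sw_2 (P : E3) : Sw P 2 = P 1 := by simp [Sw, lin_apply]
@[simp] lemma Rf_0 (P : E3) : Rf P 0 = (257 * P 0 - 255 * P 1) / 32 := by
  simp [Rf, lin_apply]; ring
@[simp] lemma Rf_1 (P : E3) : Rf P 1 = (255 * P 0 - 257 * P 1) / 32 := by
  simp [Rf, lin_apply]; ring
@[simp] lemma Rf_2 (P : E3) : Rf P 2 = P 2 := by simp [Rf, lin_apply]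

lemma Ng_lor {a b : ℝ} (ha : a ^ 2 = 1) (hb : b ^ 2 = 1) (x y : E3) :
    lor (Ng a b x) (Ng a b y) = lor x y := by
  simp only [lor, Ng_0, Ng_1, Ng_2]
  linear_combination (-(x 1 * y 1)) * ha - (x 2 * y 2) * hb

lemma Sw_lor (x y : E3) : lor (Sw x) (Sw y) = lor x y := by
  simp only [lor, Sw_0, Sw_1, Sw_2]; ring

lemma Rf_lor (x y : E3) : lor (Rf x) (Rf y) = lor x y := by
  simp only [lor, Rf_0, Rf_1, Rf_2]; ring

lemma Ng_Ng {a b : ℝ} (ha : a ^ 2 = 1) (hb : b ^ 2 = 1) (x : E3) : Ng a b (Ng a b x) = x := by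
  apply ext3
  · simp
  · simp only [Ng_1]; linear_combination (x 1) * ha
  · simp only [Ng_2]; linear_combination (x 2) * hb

lemma Sw_Sw (x : E3) : Sw (Sw x) = x := by apply ext3 <;> simp

lemma Rf_Rf (x : E3) : Rf (Rf x) = x := by
  apply ext3 <;> simp only [Rf_0, Rf_1, Rf_2] <;> ring

lemma sq_one {a : ℝ} (ha : a ^ 2 = 1) : a = 1 ∨ a = -1 := by
  have : (a - 1) * (a + 1) = 0 := by linarith
  rcases mul_eq_zero.1 this with h | h
  · left; linarith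
  · right; linarith

lemma pA_sgn {a : ℝ} (ha : a ^ 2 = 1) (x y : ℝ) : pA (a * x / y) = a * pA (x / y) := by
  rcases sq_one ha with rfl | rfl
  · simp
  · rw [neg_one_mul, neg_div, pA_neg, neg_one_mul]

lemma pC_sgn {a : ℝ} (ha : a ^ 2 = 1) (x y : ℝ) : pC (a * x / y) = pC (x / y) := by
  rcases sq_one ha with rfl | rfl
  · simp
  · rw [neg_one_mul, neg_div, pC_neg]

lemma abs_sgn {a : ℝ} (ha : a ^ 2 = 1) (x y : ℝ) : |a * x / y| = |x / y| := by
  rcases sq_one ha with rfl | rfl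
  · simp
  · rw [neg_one_mul, neg_div, abs_neg]

lemma Phi_Ng {a b : ℝ} (ha : a ^ 2 = 1) (hb : b ^ 2 = 1) (z : ℝ) (P : E3) :
    Phi z (Ng a b P) = !₂[a * Phi z P 0, b * Phi z P 1, Phi z P 2] := by
  apply ext3
  · simp [pA_sgn ha]; ring
  · simp [pA_sgn hb]; ring
  · simp [pC_sgn ha, pC_sgn hb]

lemma Phi_Sw (z : ℝ) (P : E3) :
    Phi z (Sw P) = !₂[Phi z P 1, Phi z P 0, Phi z P 2] := by
  apply ext3
  · simp
  · simp
  · simp [mul_comm]

lemma Cone.ng {a b : ℝ} (ha : a ^ 2 = 1) (hb : b ^ 2 = 1) {P : E3} (h : Cone P) :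
    Cone (Ng a b P) := ⟨by simpa using h.1, by rw [Ng_lor ha hb]; exact h.2⟩

lemma Cone.sw {P : E3} (h : Cone P) : Cone (Sw P) :=
  ⟨by simpa using h.1, by rw [Sw_lor]; exact h.2⟩

lemma Cross.ng {a b : ℝ} (ha : a ^ 2 = 1) (hb : b ^ 2 = 1) {P : E3} (h : Cross P) :
    Cross (Ng a b P) := by
  unfold Cross at *
  simpa only [Ng_0, Ng_1, Ng_2, abs_sgn ha, abs_sgn hb] using h

lemma Cross.sw {P : E3} (h : Cross P) : Cross (Sw P) := by
  unfold Cross at *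
  simpa only [Sw_0, Sw_1, Sw_2, or_comm] using h

lemma Cone.rf {P : E3} (h : Cone P) : Cone (Rf P) := by
  refine ⟨?_, by rw [Rf_lor]; exact h.2⟩
  have := (abs_lt.1 h.k1).2
  rw [div_lt_one h.1] at this
  have := h.1
  rw [Rf_0]; linarith

lemma Cone.far {P : E3} (h : Cone P) (h1 : 4 / 5 < P 1 / P 0) : |P 2 / P 0| < 3 / 5 := by
  have h2 := h.2
  have h0 := h.1
  unfold lor at h2
  rw [lt_div_iff₀ h0] at h1
  rw [abs_div, abs_of_pos h.1, div_lt_iff₀ h0]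
  apply abs_lt_of_sq_lt_sq _ (by positivity)
  nlinarith

lemma Phi_far (z : ℝ) {P : E3} (h : Cone P) (h1 : 4 / 5 < P 1 / P 0) :
    Phi z P = !₂[(17 * P 0 - 15 * P 1) / 2, P 2, z * ((15 * P 0 - 17 * P 1) / 2)] := by
  have h0 := h.1
  have h2 := h.far h1
  apply ext3
  · rw [Phi_0, pA_far h1.le]; simp; field_simp
  · rw [Phi_1, pA_mid h2.le]; simp; field_simp
  · rw [Phi_2, pC_far h1.le, pC_mid h2.le]; simp; left; field_simp

lemma Rf_far {P : E3} (h : Cone P) (h2 : P 1 / P 0 < 93 / 100) : 4 / 5 < Rf P 1 / Rf P 0 := by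
  have h0 := h.1
  rw [lt_div_iff₀ h.rf.1, Rf_0, Rf_1]
  rw [div_lt_iff₀ h0] at h2
  linarith

lemma Phi_Rf (z : ℝ) {P : E3} (h : Cone P) (h1 : 4 / 5 < P 1 / P 0) (h2 : P 1 / P 0 < 93 / 100) :
    Phi z (Rf P) = Phi (-z) P := by
  rw [Phi_far z h.rf (Rf_far h h2), Phi_far (-z) h h1]
  apply ext3
  · simp; ring
  · simp
  · simp; ring

lemma eventually_k {P : E3} (h : Cone P) (i : Fin 3) {a b : ℝ} (h1 : a < P i / P 0)
    (h2 : P i / P 0 < b) : ∀ᶠ X in 𝓝 P, Cone X ∧ a < X i / X 0 ∧ X i / X 0 < b := by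
  have hc : ContinuousAt (fun X : E3 => X i / X 0) P :=
    ContinuousAt.div (by fun_prop) (by fun_prop) h.1.ne'
  exact Filter.Eventually.and (isOpen_cone.mem_nhds h) ((hc.eventually (lt_mem_nhds h1)).and
    (hc.eventually (gt_mem_nhds h2)))

/-- `g` is a reflection in a seam near `P` -/
def Refl (g : E3 →L[ℝ] E3) (P : E3) : Prop :=
  (∀ x y, lor (g x) (g y) = lor x y) ∧ (∀ x, g (g x) = x) ∧ Cone (g P) ∧ Cross (g P) ∧
    ∀ᶠ X in 𝓝 P, ∀ z, Phi z (g X) = Phi (-z) X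

lemma refl_Rf {P : E3} (h : Cone P) (h1 : 4 / 5 < P 1 / P 0) (h2 : P 1 / P 0 < 93 / 100) :
    Refl Rf P := by
  refine ⟨Rf_lor, Rf_Rf, h.rf, Or.inr (h.rf.far (Rf_far h h2)), ?_⟩
  filter_upwards [eventually_k h 1 h1 h2] with X hX z
  exact Phi_Rf z hX.1 hX.2.1 hX.2.2

lemma Refl.ng {a b : ℝ} (ha : a ^ 2 = 1) (hb : b ^ 2 = 1) {g : E3 →L[ℝ] E3} {P : E3}
    (h : Refl g (Ng a b P)) : Refl ((Ng a b).comp (g.comp (Ng a b))) P := by
  obtain ⟨h1, h2, h3, h4, h5⟩ := h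
  refine ⟨fun x y => ?_, fun x => ?_, h3.ng ha hb, h4.ng ha hb, ?_⟩
  · simp only [ContinuousLinearMap.comp_apply, Ng_lor ha hb, h1]
  · simp only [ContinuousLinearMap.comp_apply, Ng_Ng ha hb, h2]
  · filter_upwards [(Ng a b).continuous.continuousAt.eventually h5] with X hX z
    simp only [ContinuousLinearMap.comp_apply]
    rw [Phi_Ng ha hb, hX, ← Phi_Ng ha hb, Ng_Ng ha hb]

lemma Refl.sw {g : E3 →L[ℝ] E3} {P : E3}
    (h : Refl g (Sw P)) : Refl (Sw.comp (g.comp Sw)) P := by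
  obtain ⟨h1, h2, h3, h4, h5⟩ := h
  refine ⟨fun x y => ?_, fun x => ?_, h3.sw, h4.sw, ?_⟩
  · simp only [ContinuousLinearMap.comp_apply, Sw_lor, h1]
  · simp only [ContinuousLinearMap.comp_apply, Sw_Sw, h2]
  · filter_upwards [Sw.continuous.continuousAt.eventually h5] with X hX z
    simp only [ContinuousLinearMap.comp_apply]
    rw [Phi_Sw, hX, ← Phi_Sw, Sw_Sw]

lemma exists_refl1 {P : E3} (h : Cone P) (h1 : 4 / 5 < |P 1 / P 0|) (h2 : |P 1 / P 0| < 93 / 100) :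
    ∃ g, Refl g P := by
  rcases le_total 0 (P 1 / P 0) with h0 | h0
  · rw [abs_of_nonneg h0] at h1 h2
    exact ⟨_, refl_Rf h h1 h2⟩
  · rw [abs_of_nonpos h0] at h1 h2
    have a : (-1 : ℝ) ^ 2 = 1 := by norm_num
    have b : (1 : ℝ) ^ 2 = 1 := by norm_num
    refine ⟨_, Refl.ng a b (refl_Rf (h.ng a b) ?_ ?_)⟩
    · simpa [neg_div] using h1
    · simpa [neg_div] using h2

/-- the open region where the charts are used -/
def Reg : Set E3 :=
  {P | Cone P ∧ Cross P ∧ |P 1 / P 0| < 93 / 100 ∧ |P 2 / P 0| < 93 / 100}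

lemma exists_refl {P : E3} (h : P ∈ Reg) (hC : pC (P 1 / P 0) * pC (P 2 / P 0) ≤ 0) :
    ∃ g, Refl g P := by
  obtain ⟨h1, -, h3, h4⟩ := h
  by_cases a : |P 1 / P 0| < 15 / 17
  · by_cases b : |P 2 / P 0| < 15 / 17
    · exact absurd (mul_pos (pC_pos a) (pC_pos b)) (not_lt.2 hC)
    · obtain ⟨g, hg⟩ := exists_refl1 h1.sw (by simp only [Sw_0, Sw_1]; linarith)
        (by simpa only [Sw_0, Sw_1] using h4)
      exact ⟨_, hg.sw⟩
  · exact exists_refl1 h1 (by linarith) h3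

lemma Phi_uniq {z z' : ℝ} (hz : z ^ 2 = 1) (hz' : z' ^ 2 = 1) {P P' : E3} (h : P ∈ Reg)
    (h' : P' ∈ Reg) (e : Phi z P = Phi z' P') : ∃ g : E3 →L[ℝ] E3,
      (∀ x y, lor (g x) (g y) = lor x y) ∧ g P = P' ∧ ∀ᶠ X in 𝓝 P, Phi z' (g X) = Phi z X := by
  have z0 : z ≠ 0 := by rintro rfl; norm_num at hz
  have z0' : z' ≠ 0 := by rintro rfl; norm_num at hz'
  by_cases hzz : z' = z
  · subst hzz
    exact ⟨ContinuousLinearMap.id ℝ E3, fun _ _ => rfl, Phi_inj z0 h.1 h.2.1 h'.1 h'.2.1 e,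
      Eventually.of_forall fun _ => rfl⟩
  have hneg : z' = -z := by
    have : (z' - z) * (z' + z) = 0 := by linarith
    have := (mul_eq_zero.1 this).resolve_left (sub_ne_zero.2 hzz)
    linarith
  subst hneg
  have e2 : z * (P 0 * (pC (P 1 / P 0) * pC (P 2 / P 0))) =
      -z * (P' 0 * (pC (P' 1 / P' 0) * pC (P' 2 / P' 0))) := congrArg (fun x : E3 => x 2) e
  have e3 : P 0 * (pC (P 1 / P 0) * pC (P 2 / P 0)) =
      -(P' 0 * (pC (P' 1 / P' 0) * pC (P' 2 / P' 0))) := by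
    apply mul_left_cancel₀ z0; linarith
  by_cases hC : pC (P 1 / P 0) * pC (P 2 / P 0) ≤ 0
  · obtain ⟨g, g1, g2, g3, g4, g5⟩ := exists_refl h hC
    refine ⟨g, g1, ?_, g5.mono fun X hX => by rw [hX, neg_neg]⟩
    apply Phi_inj z0' g3 g4 h'.1 h'.2.1
    rw [g5.self_of_nhds, neg_neg, e]
  · have hC' : pC (P' 1 / P' 0) * pC (P' 2 / P' 0) ≤ 0 := by
      by_contra hc
      push Not at hC hc
      have := mul_pos h.1.1 hC
      have := mul_pos h'.1.1 hc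
      linarith
    obtain ⟨g, g1, g2, g3, g4, g5⟩ := exists_refl h' hC'
    have gP : g P' = P := by
      apply Phi_inj z0 g3 g4 h.1 h.2.1
      rw [g5.self_of_nhds, e]
    have gP' : g P = P' := by rw [← gP, g2]
    refine ⟨g, g1, gP', ?_⟩
    have hc : ContinuousAt g P := g.continuous.continuousAt
    rw [← gP'] at g5
    filter_upwards [hc.eventually g5] with X hX
    rw [← hX z, g2]

end Pool.Agent.H788Z.Geo
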