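import Pool.Agent.H788Z.Geo.Frames

set_option autoImplicit false

open Filter Topology Set
open scoped ContDiff

namespace Pool.Agent.H788Z.Geo

open Classical in
noncomputable def sa : ℕ → ℝ
  | 0 => 1
  | n + 1 => if tA n then -sa n else sa n

open Classical in
noncomputable def sb : ℕ → ℝ
  | 0 => 1
  | n + 1 => if tA n then sb n else -sb n

lemma sa_sq (n : ℕ) : sa n ^ 2 = 1 := by
  induction n with
  | zero => simp [sa]
  | succ n ih => rw [sa]; split_ifs <;> simp [ih]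

lemma sb_sq (n : ℕ) : sb n ^ 2 = 1 := by
  induction n with
  | zero => simp [sb]
  | succ n ih => rw [sb]; split_ifs <;> simp [ih]

noncomputable def sz (n : ℕ) : ℝ := sa n * sb n

lemma sz_sq (n : ℕ) : sz n ^ 2 = 1 := by rw [sz, mul_pow, sa_sq, sb_sq, mul_one]

lemma sz_succ (n : ℕ) : sz (n + 1) = -sz n := by
  rw [sz, sz, sa, sb]; split_ifs <;> ring

/-- position in the chart -/
noncomputable def hn (n : ℕ) (s : ℝ) : E3 := Ng (sa n) (sb n) (gn n s)

/-- the curve on the sphere given by the `n`-th frame -/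
noncomputable def Y (n : ℕ) (s : ℝ) : E3 := pt (sz n) (hn n s)

lemma cone_hn (n : ℕ) (s : ℝ) : Cone (hn n s) := (cone_gn n s).ng (sa_sq n) (sb_sq n)

lemma continuous_gn (n : ℕ) : Continuous (gn n) := (contDiff_geo _ _).continuous

lemma Y_trans (n : ℕ) : ∀ᶠ s in 𝓝 (tau n), Y (n + 1) s = Y n s := by
  have he := ex_tau n
  have hc := cone_gn n (tau n)
  have h0 := hc.1
  have key : ∀ g : E3 →L[ℝ] E3, Refl g (gn n (tau n)) →
      (∀ s, hn (n + 1) s = Ng (sa n) (sb n) (g (gn n s))) →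
      ∀ᶠ s in 𝓝 (tau n), Y (n + 1) s = Y n s := by
    intro g hg hh
    filter_upwards [(continuous_gn n).continuousAt.eventually hg.2.2.2.2] with s hs
    have : Phi (sz (n + 1)) (hn (n + 1) s) = Phi (sz n) (hn n s) := by
      rw [hh, Phi_Ng (sa_sq n) (sb_sq n), hs, sz_succ, neg_neg, ← Phi_Ng (sa_sq n) (sb_sq n)]
      rfl
    rw [Y, Y, pt, pt, this]
  unfold ex at he
  by_cases a : tA n
  · rw [if_pos a] at he
    have k : gn n (tau n) 1 / gn n (tau n) 0 = 15 / 17 := by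
      rw [div_eq_iff h0.ne']; linarith
    apply key Rf (refl_Rf hc (by rw [k]; norm_num) (by rw [k]; norm_num))
    intro s
    rw [hn, gn_succ, W, sa, sb, if_pos a, if_pos a, if_pos a]
    apply ext3 <;> simp <;> ring
  · rw [if_neg a] at he
    have k : Sw (gn n (tau n)) 1 / Sw (gn n (tau n)) 0 = 15 / 17 := by
      rw [Sw_0, Sw_1, div_eq_iff h0.ne']; linarith
    apply key _ (refl_Rf hc.sw (by rw [k]; norm_num) (by rw [k]; norm_num)).sw
    intro s
    rw [hn, gn_succ, W, sa, sb, if_neg a, if_neg a, if_neg a]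
    apply ext3 <;> simp <;> ring

lemma exists_lt_tau (s : ℝ) : ∃ n, s < tau n := by
  obtain ⟨n, hn⟩ := exists_nat_gt (s - tau 0)
  exact ⟨n, by linarith [tau_ge n]⟩

open Classical in
noncomputable def idx (s : ℝ) : ℕ := Nat.find (exists_lt_tau s)

/-- the ray, started at time `tau 0` -/
noncomputable def cc (s : ℝ) : E3 := Y (idx s) s

lemma idx_eq {n : ℕ} {s : ℝ} (h : s ∈ Ico (tau n) (tau (n + 1))) : idx s = n + 1 := by
  classical
  rw [idx, Nat.find_eq_iff]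
  refine ⟨h.2, fun m hm => not_lt.2 ((tau_mono.monotone (by omega)).trans h.1)⟩

lemma exists_frame {s : ℝ} (h : tau 0 ≤ s) : ∃ n, s ∈ Ico (tau n) (tau (n + 1)) := by
  classical
  have h1 : s < tau (idx s) := Nat.find_spec (exists_lt_tau s)
  cases e : idx s with
  | zero => rw [e] at h1; linarith
  | succ n =>
    rw [e] at h1
    refine ⟨n, not_lt.1 (Nat.find_min (exists_lt_tau s) ?_), h1⟩
    show n < idx s
    omega

lemma cc_eq {n : ℕ} {s : ℝ} (h : s ∈ Icc (tau n) (tau (n + 1))) : cc s = Y (n + 1) s := by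
  rcases eq_or_lt_of_le h.2 with e | e
  · rw [cc, idx_eq (n := n + 1) ⟨e.ge, by rw [e]; exact tau_mono (by omega)⟩, e]
    exact (Y_trans (n + 1)).self_of_nhds
  · rw [cc, idx_eq ⟨h.1, e⟩]

lemma cc_local {n : ℕ} {t : ℝ} (h : t ∈ Ico (tau n) (tau (n + 1))) :
    ∀ᶠ s in 𝓝 t, tau 0 ≤ s → cc s = Y (n + 1) s := by
  rcases eq_or_lt_of_le h.1 with e | e
  · subst e
    cases n with
    | zero =>
      filter_upwards [Iio_mem_nhds h.2] with s hs h0
      exact cc_eq ⟨h0, le_of_lt hs⟩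
    | succ n =>
      filter_upwards [Iio_mem_nhds h.2, Ioi_mem_nhds (tau_mono (Nat.lt_succ_self n)),
        Y_trans (n + 1)] with s hs hs' hY _
      rcases le_total s (tau (n + 1)) with a | a
      · rw [cc_eq ⟨le_of_lt hs', a⟩, hY]
      · exact cc_eq ⟨a, le_of_lt hs⟩
  · filter_upwards [Ioo_mem_nhds e h.2] with s hs _
    exact cc_eq (Ioo_subset_Icc_self hs)

lemma cc_norm (s : ℝ) : ‖cc s‖ = 1 := pt_norm (sz_sq _) (cone_hn _ _)

lemma Good.ng {a b : ℝ} (ha : a ^ 2 = 1) (hb : b ^ 2 = 1) {P : E3} (h : Good P) :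
    Good (Ng a b P) := by
  have ea : |a| = 1 := by rcases sq_one ha with rfl | rfl <;> simp
  have eb : |b| = 1 := by rcases sq_one hb with rfl | rfl <;> simp
  unfold Good at *
  simpa only [Ng_lor ha hb, Ng_0, Ng_1, Ng_2, abs_mul, ea, eb, one_mul] using h

theorem cc_geo {G : E3 → (E3 →L[ℝ] (E3 →L[ℝ] ℝ))} (hG : Continuous G) {m : ℝ} (hm : 0 < m)
    (hmG : ∀ x ∈ Metric.sphere (0 : E3) 1, ∀ v : E3, inner ℝ x v = (0:ℝ) →
      m * ‖v‖ ≤ Real.sqrt (G x v v))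
    (hGf : ∀ z : ℝ, z ^ 2 = 1 → ∀ P ∈ Dom₀, ‖Phi z P‖ = 1 → ∀ v w : E3,
        G (Phi z P) (fderiv ℝ (Phi z) P v) (fderiv ℝ (Phi z) P w) = hyp P v w)
    {t : ℝ} (ht : tau 0 ≤ t) :
    ∃ ε > 0, ∀ s₁ s₂, tau 0 ≤ s₁ → t - ε < s₁ → s₁ ≤ s₂ → s₂ < t + ε →
      Lower G (cc s₁) (cc s₂) (s₂ - s₁) ∧ Upper G (cc s₁) (cc s₂) (s₂ - s₁) := by
  obtain ⟨n, hn'⟩ := exists_frame ht
  have ha := sa_sq (n + 1)
  have hb := sb_sq (n + 1)
  have e : ∀ s, hn (n + 1) s = geo (Ng (sa (n + 1)) (sb (n + 1)) (UU (n + 1)))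
      (Ng (sa (n + 1)) (sb (n + 1)) (VV (n + 1))) s := fun s => map_geo _ _ _ _
  obtain ⟨ε, hε, h1⟩ := geo_chart hG hm hmG hGf (sz_sq (n + 1))
    (U := Ng (sa (n + 1)) (sb (n + 1)) (UU (n + 1)))
    (V := Ng (sa (n + 1)) (sb (n + 1)) (VV (n + 1)))
    (by rw [Ng_lor ha hb]; exact (fut_UU _).1) (by rw [Ng_lor ha hb]; exact (past_VV _).1)
    (by rw [Ng_lor ha hb]; exact lor_UV_pos _) (by rw [Ng_0]; exact (fut_UU _).2.1)
    (by rw [Ng_0]; exact (past_VV _).2.1) (t := t)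
    (by rw [← e]; exact (good_gn (Ico_subset_Icc_self hn')).ng ha hb)
  obtain ⟨ε', hε', h2⟩ := Metric.eventually_nhds_iff.1 (cc_local hn')
  refine ⟨min ε ε', lt_min hε hε', fun s₁ s₂ a0 a1 a2 a3 => ?_⟩
  have m1 := min_le_left ε ε'
  have m2 := min_le_right ε ε'
  rw [h2 (y := s₁) (by rw [Real.dist_eq, abs_lt]; constructor <;> linarith) a0,
    h2 (y := s₂) (by rw [Real.dist_eq, abs_lt]; constructor <;> linarith) (a0.trans a2),
    Y, Y, e, e]
  exact h1 s₁ s₂ (by linarith) a2 (by linarith)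

/-! ### injectivity -/

lemma chord_ne {p q p' q' a b a' b' : ℝ} (hq : 0 ≤ q) (hp : 0 ≤ p) (hq' : 0 ≤ q')
    (hpp : p < p') (hqq : q' < q) (ha' : 0 < a') (hb' : 0 < b') :
    a • up p + b • vp q ≠ a' • up p' + b' • vp q' := by
  intro h
  have e0 := congrArg (fun x : E3 => x 0) h
  have e1 := congrArg (fun x : E3 => x 1) h
  have e2 := congrArg (fun x : E3 => x 2) h
  simp only [PiLp.add_apply, PiLp.smul_apply, smul_eq_mul, up_0, up_1, up_2, vp_0, vp_1,
    vp_2] at e0 e1 e2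
  have key : a' * (2 * (p' - p) * (1 + q * p')) + b' * (2 * (q - q') * (1 + p * q')) = 0 := by
    linear_combination (p - q) * e0 + (p + q) * e1 - (1 - p * q) * e2
  have hp' : 0 ≤ p' := hp.trans hpp.le
  have k1 : 0 < a' * (2 * (p' - p) * (1 + q * p')) := by
    have := sub_pos.2 hpp; positivity
  have k2 : 0 < b' * (2 * (q - q') * (1 + p * q')) := by
    have := sub_pos.2 hqq; positivity
  linarith

lemma chord_eq {x y a b a' b' : ℝ} (hx : x ∈ Ioo (0:ℝ) 1) (hy : y ∈ Ioo (0:ℝ) 1) (ha : 0 < a)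
    (hb : 0 < b) (ha' : 0 < a') (hb' : 0 < b')
    (h : a • up (ff x) + b • vp (ff (1 - x)) = a' • up (ff y) + b' • vp (ff (1 - y))) : x = y := by
  rcases lt_trichotomy x y with c | c | c
  · exact absurd h (chord_ne (ff_nonneg _) (ff_nonneg _) (ff_nonneg _) (ff_strict hx.1.le c hy.2)
      (ff_strict (by linarith [hy.2]) (by linarith) (by linarith [hx.1])) ha' hb')
  · exact c
  · exact absurd h.symm (chord_ne (ff_nonneg _) (ff_nonneg _) (ff_nonneg _)
      (ff_strict hy.1.le c hx.2)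
      (ff_strict (by linarith [hx.2]) (by linarith) (by linarith [hy.1])) ha hb)

lemma gn_form (n : ℕ) (s : ℝ) : ∃ a > (0:ℝ), ∃ b > (0:ℝ),
    gn n s = a • up (ff (xs n)) + b • vp (ff (1 - xs n)) := by
  obtain ⟨u, hu, eu⟩ := UU_eq n
  obtain ⟨v, hv, ev⟩ := VV_eq n
  refine ⟨Real.exp s * u, by positivity, Real.exp (-s) * v, by positivity, ?_⟩
  rw [gn, geo, eu, ev, smul_smul, smul_smul]; rfl

lemma xs_Ioo (n : ℕ) : xs n ∈ Ioo (0:ℝ) 1 := ⟨xs_pos n, (xs_mem n).2⟩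

lemma gn_inj {n n' : ℕ} {s s' : ℝ} (h : gn n s = gn n' s') : s = s' := by
  obtain ⟨a, ha, b, hb, e⟩ := gn_form n s
  obtain ⟨a', ha', b', hb', e'⟩ := gn_form n' s'
  have h2 := h
  rw [e, e'] at h2
  have := xs_inj (chord_eq (xs_Ioo n) (xs_Ioo n') ha hb ha' hb' h2)
  subst this
  have h3 := congrArg (lor (VV n)) h
  rw [gn, gn, lor_V_geo (past_VV n).1, lor_V_geo (past_VV n).1] at h3
  exact Real.exp_injective (mul_right_cancel₀ (lor_UV_pos n).ne' h3)

lemma gn_ne (n n' : ℕ) (s s' : ℝ) : gn n s ≠ Ng (-1) (-1) (gn n' s') := by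
  intro h
  obtain ⟨a, ha, b, hb, e⟩ := gn_form n s
  obtain ⟨a', ha', b', hb', e'⟩ := gn_form n' s'
  have e2 : Ng (-1) (-1) (gn n' s') =
      b' • up (ff (1 - xs n')) + a' • vp (ff (1 - (1 - xs n'))) := by
    rw [e', sub_sub_cancel]
    apply ext3 <;> simp <;> ring
  rw [e, e2] at h
  have hy : 1 - xs n' ∈ Ioo (0:ℝ) 1 := ⟨by linarith [(xs_Ioo n').2], by linarith [(xs_Ioo n').1]⟩
  exact xs_ne n n' (chord_eq (xs_Ioo n) hy ha hb hb' ha' h)

lemma pt_inj {z : ℝ} (hz : z ^ 2 = 1) {P P' : E3} (h : Good P) (h' : Good P')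
    (hl : lor P P = lor P' P') (e : pt z P = pt z P') : P = P' := by
  have z0 : z ≠ 0 := by rintro rfl; norm_num at hz
  rw [pt_eq hz h.cone, pt_eq hz h'.cone] at e
  have r := Dom_sub (Dom₀_sub (h.nz_mem hz))
  have r' := Dom_sub (Dom₀_sub (h'.nz_mem hz))
  have e2 := Phi_inj z0 r.1 r.2.1 r'.1 r'.2.1 e
  have e3 := congrArg (fun x => lor x x) e2
  simp only [nz, lor_smul_left, lor_smul_right] at e3 e2
  have p : 0 < ‖Phi z P‖⁻¹ := inv_pos.2 (norm_pos_iff.2 (Phi_ne hz h.cone))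
  have p' : 0 < ‖Phi z P'‖⁻¹ := inv_pos.2 (norm_pos_iff.2 (Phi_ne hz h'.cone))
  set a := ‖Phi z P‖⁻¹
  set a' := ‖Phi z P'‖⁻¹
  have l := h.cone.2
  rw [← hl] at e3
  have : a = a' := by
    have : (a - a') * ((a + a') * lor P P) = 0 := by linarith
    have := (mul_eq_zero.1 this).resolve_right (by positivity)
    linarith
  rw [← this] at e2
  exact smul_right_injective _ p.ne' e2

lemma lor_hn (n : ℕ) (s : ℝ) : lor (hn n s) (hn n s) = 2 * lor (UU 0) (VV 0) := by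
  rw [hn, Ng_lor (sa_sq n) (sb_sq n), gn, lor_geo (fut_UU n).1 (past_VV n).1, lor_UV]

lemma Y_inj {n n' : ℕ} {s s' : ℝ} (h : s ∈ Icc (tau n) (tau (n + 1)))
    (h' : s' ∈ Icc (tau n') (tau (n' + 1))) (hz : sz (n + 1) = sz (n' + 1))
    (e : Y (n + 1) s = Y (n' + 1) s') : s = s' := by
  rw [Y, Y, ← hz] at e
  have ha := sa_sq (n + 1)
  have hb := sb_sq (n + 1)
  have ha' := sa_sq (n' + 1)
  have hb' := sb_sq (n' + 1)
  have e2 := pt_inj (sz_sq (n + 1)) ((good_gn h).ng ha hb) ((good_gn h').ng ha' hb')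
    ((lor_hn _ _).trans (lor_hn _ _).symm) e
  have e3 := congrArg (Ng (sa (n + 1)) (sb (n + 1))) e2
  rw [Ng_Ng ha hb] at e3
  unfold sz at hz
  by_cases c : sa (n' + 1) = sa (n + 1)
  · have c' : sb (n' + 1) = sb (n + 1) := by
      rw [c] at hz
      linear_combination (-sa (n + 1)) * hz - (sb (n' + 1) - sb (n + 1)) * ha
    rw [c, c', Ng_Ng ha hb] at e3
    exact gn_inj e3
  · exfalso
    have c1 : sa (n' + 1) = -sa (n + 1) := by
      have : (sa (n' + 1) - sa (n + 1)) * (sa (n' + 1) + sa (n + 1)) = 0 := by linarith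
      have := (mul_eq_zero.1 this).resolve_left (sub_ne_zero.2 c)
      linarith
    have c' : sb (n' + 1) = -sb (n + 1) := by
      rw [c1] at hz
      linear_combination (sa (n + 1)) * hz - (sb (n' + 1) + sb (n + 1)) * ha
    apply gn_ne (n + 1) (n' + 1) s s'
    rw [e3, c1, c']
    apply ext3
    · simp
    · simp only [Ng_1]; linear_combination (-(gn (n' + 1) s' 1)) * ha
    · simp only [Ng_2]; linear_combination (-(gn (n' + 1) s' 2)) * hb

lemma Y_2 (n : ℕ) (s : ℝ) : ∃ r > (0:ℝ), Y n s 2 =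
    r * (sz n * (pC (gn n s 1 / gn n s 0) * pC (gn n s 2 / gn n s 0))) := by
  have p : 0 < ‖Phi (sz n) (hn n s)‖⁻¹ :=
    inv_pos.2 (norm_pos_iff.2 (Phi_ne (sz_sq n) (cone_hn n s)))
  refine ⟨‖Phi (sz n) (hn n s)‖⁻¹ * gn n s 0, mul_pos p (cone_gn n s).1, ?_⟩
  rw [Y, pt, PiLp.smul_apply, Phi_2, smul_eq_mul]
  simp only [hn, Ng_0, Ng_1, Ng_2, pC_sgn (sa_sq n), pC_sgn (sb_sq n)]
  ring

lemma cc_inj {s s' : ℝ} (h : tau 0 ≤ s) (h' : tau 0 ≤ s') (e : cc s = cc s') : s = s' := by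
  obtain ⟨n, hn1⟩ := exists_frame h
  obtain ⟨n', hn2⟩ := exists_frame h'
  wlog hle : n ≤ n' generalizing s s' n n'
  · exact (this h' h e.symm n' hn2 n hn1 (by omega)).symm
  have i1 := Ico_subset_Icc_self hn1
  have i2 := Ico_subset_Icc_self hn2
  by_cases hz : sz (n + 1) = sz (n' + 1)
  · rw [cc_eq i1, cc_eq i2] at e
    exact Y_inj i1 i2 hz e
  have hz' : sz (n' + 1) = -sz (n + 1) := by
    have a := sz_sq (n + 1)
    have b := sz_sq (n' + 1)
    have : (sz (n + 1) - sz (n' + 1)) * (sz (n' + 1) + sz (n + 1)) = 0 := by linarith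
    have := (mul_eq_zero.1 this).resolve_left (sub_ne_zero.2 hz)
    linarith
  have hs' : s' = tau n' := by
    by_contra hne
    have hlt : tau n' < s' := lt_of_le_of_ne hn2.1 (Ne.symm hne)
    obtain ⟨b1, b2⟩ := strict_gn ⟨hlt, hn2.2⟩
    have g := good_gn i1
    have p' := (cone_gn (n' + 1) s').1
    have p := (cone_gn (n + 1) s).1
    have c1 : 0 < pC (gn (n' + 1) s' 1 / gn (n' + 1) s' 0) *
        pC (gn (n' + 1) s' 2 / gn (n' + 1) s' 0) :=
      mul_pos (pC_pos (by rw [abs_div, abs_of_pos p', div_lt_iff₀ p']; exact b1))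
        (pC_pos (by rw [abs_div, abs_of_pos p', div_lt_iff₀ p']; exact b2))
    have c2 : 0 ≤ pC (gn (n + 1) s 1 / gn (n + 1) s 0) * pC (gn (n + 1) s 2 / gn (n + 1) s 0) :=
      mul_nonneg (pC_nonneg (by rw [abs_div, abs_of_pos p, div_le_iff₀ p]; exact g.2.2.2.1))
        (pC_nonneg (by rw [abs_div, abs_of_pos p, div_le_iff₀ p]; exact g.2.2.2.2))
    obtain ⟨r, hr, er⟩ := Y_2 (n + 1) s
    obtain ⟨r', hr', er'⟩ := Y_2 (n' + 1) s'
    rw [cc_eq i1, cc_eq i2] at e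
    rw [e, er', hz'] at er
    have a := sz_sq (n + 1)
    have k1 := mul_pos hr' c1
    have k2 := mul_nonneg hr.le c2
    set u := pC (gn (n' + 1) s' 1 / gn (n' + 1) s' 0) * pC (gn (n' + 1) s' 2 / gn (n' + 1) s' 0)
    set w := pC (gn (n + 1) s 1 / gn (n + 1) s 0) * pC (gn (n + 1) s 2 / gn (n + 1) s 0)
    have : r * w + r' * u = 0 := by
      linear_combination (-sz (n + 1)) * er - (r * w + r' * u) * a
    linarith
  cases n' with
  | zero =>
    have : n = 0 := by omega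
    subst this
    exact absurd rfl hz
  | succ k =>
    have i3 : s' ∈ Icc (tau k) (tau (k + 1)) := ⟨by rw [hs']; exact (tau_mono (by omega)).le, hs'.le⟩
    rw [cc_eq i1, cc_eq i3] at e
    apply Y_inj i1 i3 _ e
    rw [sz_succ (k + 1)] at hz'
    linarith

end Pool.Agent.H788Z.Geo
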